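import Pool.Agent.Y607.LP.Core

/-!
# Patterns in sets decided by small formulas
-/

set_option autoImplicit false

namespace Pool.Agent.Y607.LP

open Pool.Agent.H564R2.QF Pool.Agent.Helper600R2.Sharp Finset

/-- substitution -/
def sub {V W : Type} (ρ : V → Fml W) : Fml V → Fml W
  | .const b => .const b
  | .var v => ρ v
  | .neg f => .neg (sub ρ f)
  | .and f g => .and (sub ρ f) (sub ρ g)
  | .or f g => .or (sub ρ f) (sub ρ g)

lemma sub_eval {V W : Type} (ρ : V → Fml W) (z : W → Bool) (φ : Fml V) :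
    (sub ρ φ).eval z = φ.eval (fun v => (ρ v).eval z) := by
  induction φ with
  | const b => rfl
  | var v => rfl
  | neg f ih => simp [sub, Fml.eval, ih]
  | and f g ih ih' => simp [sub, Fml.eval, ih, ih']
  | or f g ih ih' => simp [sub, Fml.eval, ih, ih']

lemma sub_size {V W : Type} (ρ : V → Fml W) (hρ : ∀ v, (ρ v).size ≤ 1) (φ : Fml V) :
    (sub ρ φ).size ≤ φ.size := by
  induction φ with
  | const b => exact le_rfl
  | var v => exact hρ v
  | neg f ih => exact ih
  | and f g ih ih' => exact Nat.add_le_add ih ih'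
  | or f g ih ih' => exact Nat.add_le_add ih ih'

/-- the formula with value `a` if the variable `w` is false and `b` if it is true -/
def lit2 {W : Type} (w : W) (a b : Bool) : Fml W :=
  if a = b then .const a else if b = true then .var w else .neg (.var w)

lemma lit2_size {W : Type} (w : W) (a b : Bool) : (lit2 w a b).size ≤ 1 := by
  cases a <;> cases b <;> simp [lit2, Fml.size]

lemma lit2_eval {W : Type} (w : W) (a b : Bool) (z : W → Bool) :
    (lit2 w a b).eval z = if z w = true then b else a := by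
  cases a <;> cases b <;> cases h : z w <;> simp [lit2, Fml.eval, h]

section

variable {L : Type}

/-- `φ` accepts `x`; the leaves of `φ` are arbitrary tests of one coordinate -/
def Accp {ι : Type} (φ : Fml (ι × (L → Bool))) (x : ι → L) : Prop :=
  φ.eval (fun v => v.2 (x v.1)) = true

variable [Fintype L] [DecidableEq L] {ℓ m r n : ℕ}

/-- glueing along an equivalence -/
def glue (e : Fin n ≃ (Fin ℓ × Fin m) ⊕ Fin r) (x : Fin ℓ × Fin m → L) (z : Fin r → L) :
    Fin n → L :=
  fun v => Sum.elim x z (e v)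

open Classical in
lemma shr_bin (e : Fin n ≃ (Fin ℓ × Fin m) ⊕ Fin r) (φ : Fml (Fin n × (L → Bool)))
    (z : Fin r → L) (σ : Fin ℓ × Fin m → Equiv.Perm L) (u : Fin ℓ × Fin m → L) (t T : ℕ)
    (hT : 1 ≤ T) (hm : 2440980 * T ≤ m) (hs : φ.size ≤ t * T ^ 2) :
    Shr t ((1 / 4) ^ t)
      (bin σ (fun x : Fin ℓ × Fin m → L => if Accp φ (glue e x z) then (1 : ℝ) else 0) u) := by
  let ρ : Fin n × (L → Bool) → Fml (Fin ℓ × Fin m) := fun v =>
    match e v.1 with
    | .inl w => lit2 w (v.2 (u w)) (v.2 (σ w (u w)))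
    | .inr q => .const (v.2 (z q))
  have hρ : ∀ v, (ρ v).size ≤ 1 := by
    intro v
    simp only [ρ]
    cases h : e v.1 with
    | inl w => exact lit2_size _ _ _
    | inr q => simp [Fml.size]
  have h1 := shr_formula (sub ρ φ) t T hT hm ((sub_size ρ hρ φ).trans hs)
  have h2 : (fun b : Fin ℓ × Fin m → Bool => if (sub ρ φ).eval b = true then (1 : ℝ) else 0) =
      bin σ (fun x : Fin ℓ × Fin m → L => if Accp φ (glue e x z) then (1 : ℝ) else 0) u := by
    funext b
    unfold bin Accp
    rw [sub_eval]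
    have h3 : (fun v => (ρ v).eval b) = fun v : Fin n × (L → Bool) =>
        v.2 (glue e (fun v => if b v = true then σ v (u v) else u v) z v.1) := by
      funext v
      simp only [ρ, glue]
      cases h : e v.1 with
      | inl w =>
        simp only [lit2_eval, Sum.elim_inl]
        split_ifs <;> rfl
      | inr q => simp [Fml.eval]
    rw [h3]
    have h4 : ∀ (q : Bool) (d1 d2 : Decidable (q = true)),
        (@ite ℝ (q = true) d1 1 0) = @ite ℝ (q = true) d2 1 0 := by
      intro q d1 d2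
      congr
    exact h4 _ _ _
  rw [← h2]
  exact h1

open Classical in
/-- one formula, given parameters -/
lemma one (e : Fin n ≃ (Fin ℓ × Fin m) ⊕ Fin r) (k : ℕ) (σ : Fin k → Fin n → Equiv.Perm L)
    (φ : Fml (Fin n × (L → Bool))) (t T : ℕ)
    (hT : 1 ≤ T) (hm : 2440980 * T ≤ m) (hs : φ.size ≤ t * T ^ 2) (hk : k * t < ℓ)
    (hfree : ∀ (x : Fin n → L) (W : Finset (Fin n)), (∀ i, Accp φ (mix (σ i) W x)) → W = ∅) :
    ((univ.filter (fun x : Fin n → L => Accp φ x)).card : ℝ) ≤
      k * (1 / 4) ^ t * (Fintype.card L : ℝ) ^ n := by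
  have h1 : ∀ z : Fin r → L,
      ((univ.filter (fun x : Fin ℓ × Fin m → L => Accp φ (glue e x z))).card : ℝ) ≤
      k * (1 / 4) ^ t * (Fintype.card L : ℝ) ^ (ℓ * m) := by
    intro z
    have h2 := core (E := Fin ℓ) (m := m) (L := L) (κ := Fin k)
      (fun i w => σ i (e.symm (Sum.inl w))) (by omega)
      (univ.filter (fun x : Fin ℓ × Fin m → L => Accp φ (glue e x z)))
      (fun x : Fin ℓ × Fin m → L => if Accp φ (glue e x z) then (1 : ℝ) else 0)
      (by intro x; split_ifs <;> simp)
      (by intro x; simp) t ((1 / 4) ^ t)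
      (fun i u => shr_bin e φ z _ u t T hT hm hs)
      (by simpa using hk)
      (by
        intro x W h
        have h3 := hfree (glue e x z) (W.map ⟨fun w => e.symm (Sum.inl w), by
          intro a b hab
          simpa using hab⟩) (by
          intro i
          have h4 := h i
          simp only [mem_filter, mem_univ, true_and] at h4
          have h5 : glue e (mix (fun w => σ i (e.symm (Sum.inl w))) W x) z =
              mix (σ i) (W.map ⟨fun w => e.symm (Sum.inl w), by
                intro a b hab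
                simpa using hab⟩) (glue e x z) := by
            funext v
            obtain ⟨w, rfl⟩ := e.symm.surjective v
            cases w with
            | inl w => simp [glue, mix]
            | inr q => simp [glue, mix]
          rw [← h5]
          exact h4)
        simpa using h3)
    simpa using h2
  have h6 : (univ.filter (fun x : Fin n → L => Accp φ x)).card =
      ∑ z : Fin r → L, (univ.filter (fun x : Fin ℓ × Fin m → L => Accp φ (glue e x z))).card := by
    let E : ((Fin ℓ × Fin m → L) × (Fin r → L)) ≃ (Fin n → L) :=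
      (Equiv.sumArrowEquivProdArrow _ _ _).symm.trans (Equiv.arrowCongr e.symm (Equiv.refl L))
    have hE : ∀ p, E p = glue e p.1 p.2 := by
      intro p
      funext v
      simp only [E, glue, Equiv.trans_apply, Equiv.arrowCongr_apply]
      rfl
    simp only [Finset.card_filter]
    rw [← Fintype.sum_equiv E (fun p => if Accp φ (glue e p.1 p.2) then 1 else 0)
      (fun x => if Accp φ x then 1 else 0) (fun p => by rw [hE]), Fintype.sum_prod_type,
      Finset.sum_comm]
  have hn : n = ℓ * m + r := by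
    have := Fintype.card_congr e
    simpa using this
  rw [h6]
  push_cast
  refine (Finset.sum_le_sum (fun z _ => h1 z)).trans (le_of_eq ?_)
  rw [Finset.sum_const, Finset.card_univ, Fintype.card_fun, Fintype.card_fin, nsmul_eq_mul]
  push_cast
  rw [hn, pow_add]
  ring

end

/-- the numerical part: parameters -/
lemma params (n S k : ℕ) (hk : 2 ≤ k) (hn : 1 ≤ n) :
    (∃ ℓ m r t T : ℕ, n = ℓ * m + r ∧ 1 ≤ T ∧ 2440980 * T ≤ m ∧ S ≤ t * T ^ 2 ∧ k * t < ℓ ∧
      (n : ℝ) ^ 2 / (20 * 2440980 ^ 2 * k ^ 2 * (S + n)) ≤ t) ∨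
    (n : ℝ) ^ 2 / (20 * 2440980 ^ 2 * k ^ 2 * (S + n)) ≤ 1 / 2 := by
  set M : ℕ := 2440980 with hM
  have hnr : (1 : ℝ) ≤ n := by exact_mod_cast hn
  have hkr : (2 : ℝ) ≤ k := by exact_mod_cast hk
  have hSr : (0 : ℝ) ≤ S := by positivity
  have hMr : (M : ℝ) = 2440980 := by rw [hM]; norm_num
  set T : ℕ := ⌈4 * k * M * ((S : ℝ) + n) / n⌉₊ with hT
  have hT0 : 4 * k * M * ((S : ℝ) + n) / n ≤ T := Nat.le_ceil _
  have hX : (1 : ℝ) ≤ k * M * ((S : ℝ) + n) / n := by
    rw [le_div_iff₀ (by linarith), hMr]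
    nlinarith
  have hT1' : (1 : ℝ) ≤ T := by
    have : 4 * k * M * ((S : ℝ) + n) / n = 4 * (k * M * ((S : ℝ) + n) / n) := by ring
    linarith
  have hT1 : 1 ≤ T := by exact_mod_cast hT1'
  have hT2 : (T : ℝ) ≤ 5 * (k * M * ((S : ℝ) + n) / n) := by
    have h1 := Nat.ceil_lt_add_one (a := 4 * k * M * ((S : ℝ) + n) / n) (by positivity)
    have : 4 * k * M * ((S : ℝ) + n) / n = 4 * (k * M * ((S : ℝ) + n) / n) := by ring
    have h2 : (T : ℝ) < 4 * k * M * ((S : ℝ) + n) / n + 1 := h1
    linarith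
  set m : ℕ := M * T with hm
  have hm0 : 0 < m := Nat.mul_pos (by norm_num) hT1
  set ℓ : ℕ := n / m with hℓ
  have hmr : (0 : ℝ) < m := by exact_mod_cast hm0
  have hmT : (m : ℝ) = M * T := by rw [hm]; push_cast; rfl
  by_cases hbig : 2 * k ≤ ℓ
  · left
    set t : ℕ := (ℓ - 1) / k with ht
    have hkt : k * t ≤ ℓ - 1 := Nat.mul_div_le _ _
    have hℓn : n < m * (ℓ + 1) := Nat.lt_mul_div_succ n hm0
    have hℓn' : (n : ℝ) < m * (ℓ + 1) := by exact_mod_cast hℓn
    have hlt : ℓ - 1 < k * (t + 1) := Nat.lt_mul_div_succ _ (by omega)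
    have hlt' : (ℓ : ℝ) ≤ k * (t + 1) := by
      have : ℓ ≤ k * (t + 1) := by omega
      exact_mod_cast this
    have hbig' : 2 * (k : ℝ) ≤ ℓ := by exact_mod_cast hbig
    -- ℓ ≤ 2 k t
    have h1 : (ℓ : ℝ) ≤ 2 * (k * t) := by nlinarith
    have h2 : (n : ℝ) ≤ 4 * m * (k * t) := by nlinarith
    have htlow : (n : ℝ) / (4 * m * k) ≤ t := by
      rw [div_le_iff₀ (by positivity)]
      nlinarith
    refine ⟨ℓ, m, n % m, t, T, ?_, hT1, le_rfl, ?_, by omega, ?_⟩
    · rw [hℓ, mul_comm]; exact (Nat.div_add_mod n m).symm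
    · -- S ≤ t T^2
      have h3 : (S : ℝ) ≤ t * T ^ 2 := by
        have h4 : (n : ℝ) / (4 * m * k) * T ^ 2 ≤ t * T ^ 2 :=
          mul_le_mul_of_nonneg_right htlow (by positivity)
        refine le_trans ?_ h4
        have h5 : (n : ℝ) / (4 * m * k) * T ^ 2 = n * T / (4 * M * k) := by
          rw [hmT]
          have : (T : ℝ) ≠ 0 := by positivity
          have : (M : ℝ) ≠ 0 := by rw [hMr]; norm_num
          field_simp
        rw [h5, le_div_iff₀ (by rw [hMr]; positivity)]
        have h6 : 4 * k * M * ((S : ℝ) + n) ≤ T * n := by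
          rw [div_le_iff₀ (by linarith)] at hT0
          exact hT0
        nlinarith [mul_nonneg (mul_nonneg (by linarith : (0:ℝ) ≤ k) (by rw [hMr]; norm_num : (0:ℝ) ≤ (M:ℝ))) (by linarith : (0:ℝ) ≤ n)]
      exact_mod_cast h3
    · refine le_trans ?_ htlow
      rw [div_le_div_iff₀ (by positivity) (by positivity)]
      have h7 : (m : ℝ) * n ≤ 5 * k * 2440980 ^ 2 * (S + n) := by
        rw [hmT]
        have h8 : (T : ℝ) * n ≤ 5 * (k * M * (S + n)) := by
          have h9 := mul_le_mul_of_nonneg_right hT2 (by linarith : (0 : ℝ) ≤ n)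
          refine h9.trans (le_of_eq ?_)
          field_simp
        calc (M : ℝ) * T * n = M * (T * n) := by ring
          _ ≤ M * (5 * (k * M * (S + n))) := mul_le_mul_of_nonneg_left h8 (by positivity)
          _ = _ := by rw [hMr]; ring
      calc (n : ℝ) ^ 2 * (4 * m * k) = (4 * k * n) * (m * n) := by ring
        _ ≤ (4 * k * n) * (5 * k * 2440980 ^ 2 * (S + n)) :=
            mul_le_mul_of_nonneg_left h7 (by positivity)
        _ = n * (20 * 2440980 ^ 2 * k ^ 2 * (S + n)) := by ring
  · right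
    push Not at hbig
    have hℓn : n < m * (ℓ + 1) := Nat.lt_mul_div_succ n hm0
    have h1 : (n : ℝ) ≤ m * (2 * k) := by
      have : n ≤ m * (2 * k) := hℓn.le.trans (Nat.mul_le_mul_left _ (by omega))
      exact_mod_cast this
    rw [div_le_iff₀ (by positivity)]
    have h8 : (T : ℝ) * n ≤ 5 * (k * M * (S + n)) := by
      have h9 := mul_le_mul_of_nonneg_right hT2 (by linarith : (0 : ℝ) ≤ n)
      refine h9.trans (le_of_eq ?_)
      field_simp
    calc (n : ℝ) ^ 2 = n * n := sq _
      _ ≤ (m * (2 * k)) * n := mul_le_mul_of_nonneg_right h1 (by linarith)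
      _ = 2 * k * M * (T * n) := by rw [hmT]; ring
      _ ≤ 2 * k * M * (5 * (k * M * (S + n))) := mul_le_mul_of_nonneg_left h8 (by positivity)
      _ = 1 / 2 * (20 * 2440980 ^ 2 * k ^ 2 * (S + n)) := by rw [hMr]; ring

/-- the constant -/
noncomputable def cst : ℝ := 1 / (20 * 2440980 ^ 2)

lemma cst_pos : 0 < cst := by unfold cst; positivity

open Classical in
/-- **Sets decided by small formulas which contain no pattern are small.** -/
theorem main (k n S T : ℕ) (hk : 2 ≤ k) {L : Type} [Fintype L]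
    (σ : Fin k → Fin n → Equiv.Perm L) (A : Finset (Fin n → L))
    (φ : Fin T → Fml (Fin n × (L → Bool))) (hS : ∀ j, (φ j).size ≤ S)
    (hA : ∀ x, x ∈ A ↔ ∃ j, Accp (φ j) x)
    (hfree : ∀ (x : Fin n → L) (W : Finset (Fin n)), (∀ i, mix (σ i) W x ∈ A) → W = ∅) :
    (A.card : ℝ) ≤ T * (k * (Fintype.card L : ℝ) ^ n *
      Real.exp (-(cst * n ^ 2 / (k ^ 2 * (S + n))))) := by
  have hkr : (2 : ℝ) ≤ k := by exact_mod_cast hk
  have hone : ∀ j, ((univ.filter (fun x : Fin n → L => Accp (φ j) x)).card : ℝ) ≤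
      k * (Fintype.card L : ℝ) ^ n * Real.exp (-(cst * n ^ 2 / (k ^ 2 * (S + n)))) := by
    intro j
    have htriv : ((univ.filter (fun x : Fin n → L => Accp (φ j) x)).card : ℝ) ≤
        (Fintype.card L : ℝ) ^ n := by
      have := Finset.card_le_univ (univ.filter (fun x : Fin n → L => Accp (φ j) x))
      rw [Fintype.card_fun, Fintype.card_fin] at this
      exact_mod_cast this
    have hpos : (0 : ℝ) ≤ (Fintype.card L : ℝ) ^ n := by positivity
    have hsmall : cst * (n : ℝ) ^ 2 / (k ^ 2 * (S + n)) ≤ 1 / 2 →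
        ((univ.filter (fun x : Fin n → L => Accp (φ j) x)).card : ℝ) ≤
        k * (Fintype.card L : ℝ) ^ n * Real.exp (-(cst * n ^ 2 / (k ^ 2 * (S + n)))) := by
      intro h
      have h1 : (1 : ℝ) / 2 ≤ Real.exp (-(cst * (n : ℝ) ^ 2 / (k ^ 2 * (S + n)))) := by
        have h2 := Real.add_one_le_exp (-(cst * (n : ℝ) ^ 2 / (k ^ 2 * (S + n))))
        linarith
      have h3 : (1 : ℝ) ≤ k * Real.exp (-(cst * (n : ℝ) ^ 2 / (k ^ 2 * (S + n)))) := by
        nlinarith
      calc _ ≤ (Fintype.card L : ℝ) ^ n := htriv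
        _ = (Fintype.card L : ℝ) ^ n * 1 := (mul_one _).symm
        _ ≤ (Fintype.card L : ℝ) ^ n * (k * Real.exp (-(cst * (n : ℝ) ^ 2 / (k ^ 2 * (S + n))))) :=
            mul_le_mul_of_nonneg_left h3 hpos
        _ = _ := by ring
    rcases Nat.eq_zero_or_pos n with hn | hn
    · subst hn
      apply hsmall
      simp
    · have hnr : (1 : ℝ) ≤ n := by exact_mod_cast hn
      have hrw : cst * (n : ℝ) ^ 2 / (k ^ 2 * (S + n)) =
          (n : ℝ) ^ 2 / (20 * 2440980 ^ 2 * k ^ 2 * (S + n)) := by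
        unfold cst
        field_simp
      rcases params n S k hk hn with ⟨ℓ, m, r, t, T', hsum, hT, hm, hSt, hkt, ht⟩ | h
      · have e : Fin n ≃ (Fin ℓ × Fin m) ⊕ Fin r :=
          Fintype.equivOfCardEq (by simp [hsum])
        have h1 := one e k σ (φ j) t T' hT hm ((hS j).trans hSt) hkt (by
          intro x W h
          exact hfree x W (fun i => (hA _).2 ⟨j, h i⟩))
        refine h1.trans ?_
        have h2 : ((1 : ℝ) / 4) ^ t ≤ Real.exp (-(cst * n ^ 2 / (k ^ 2 * (S + n)))) := by
          rw [hrw]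
          have h3 : ((1 : ℝ) / 4) ≤ Real.exp (-1) := by
            rw [Real.exp_neg, one_div]
            apply inv_anti₀ (Real.exp_pos 1)
            linarith [Real.exp_one_lt_d9]
          calc ((1 : ℝ) / 4) ^ t ≤ Real.exp (-1) ^ t := pow_le_pow_left₀ (by norm_num) h3 t
            _ = Real.exp (-(t : ℝ)) := by rw [← Real.exp_nat_mul]; congr 1; ring
            _ ≤ _ := Real.exp_le_exp.2 (by linarith)
        calc (k : ℝ) * (1 / 4) ^ t * (Fintype.card L : ℝ) ^ n
            = (k * (Fintype.card L : ℝ) ^ n) * (1 / 4) ^ t := by ring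
          _ ≤ (k * (Fintype.card L : ℝ) ^ n) *
              Real.exp (-(cst * n ^ 2 / (k ^ 2 * (S + n)))) :=
            mul_le_mul_of_nonneg_left h2 (by positivity)
      · apply hsmall
        rw [hrw]
        exact h
  have hsub : A ⊆ univ.biUnion (fun j : Fin T => univ.filter (fun x : Fin n → L => Accp (φ j) x)) := by
    intro x hx
    obtain ⟨j, hj⟩ := (hA x).1 hx
    simp only [mem_biUnion, mem_univ, true_and, mem_filter]
    exact ⟨j, hj⟩
  calc (A.card : ℝ) ≤ ((univ.biUnion (fun j : Fin T =>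
        univ.filter (fun x : Fin n → L => Accp (φ j) x))).card : ℝ) := by
        exact_mod_cast Finset.card_le_card hsub
    _ ≤ ((∑ j : Fin T, (univ.filter (fun x : Fin n → L => Accp (φ j) x)).card : ℕ) : ℝ) := by
        exact_mod_cast Finset.card_biUnion_le
    _ = ∑ j : Fin T, ((univ.filter (fun x : Fin n → L => Accp (φ j) x)).card : ℝ) := by
        push_cast; rfl
    _ ≤ ∑ _j : Fin T, k * (Fintype.card L : ℝ) ^ n *
        Real.exp (-(cst * n ^ 2 / (k ^ 2 * (S + n)))) := Finset.sum_le_sum (fun j _ => hone j)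
    _ = _ := by simp

end Pool.Agent.Y607.LP
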