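import Pool.Agent.Y607.LP.Form
import Pool.Agent.W856.Corner6
import Pool.Agent.W856.Corner4

/-!
# Corner-free sets whose lines are decided by small formulas
-/

set_option autoImplicit false

namespace Pool.Agent.Y607.LP

open Pool.Agent.H564R2.QF Pool.Agent.Helper600R2.Sharp Finset

/-- bits -/
def tb (a : ZMod 2) : Bool := decide (a = 1)

/-- the coordinates as bits -/
def bits {n : ℕ} (y : Fin n → ZMod 2) : Fin n → Bool := fun i => tb (y i)

/-- bits as elements of `F_2` -/
def fb (b : Bool) : ZMod 2 := if b = true then 1 else 0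

lemma tb_fb (b : Bool) : tb (fb b) = b := by cases b <;> decide

lemma fb_tb (a : ZMod 2) : fb (tb a) = a := by
  rcases Pool.Agent.W856.Corner.zmod2_cases a with h | h <;> subst h <;> decide

/-- `ZMod 2 ≃ Bool` -/
def eb : ZMod 2 ≃ Bool := ⟨tb, fb, fb_tb, tb_fb⟩

section

variable {ℓ : ℕ}

/-- functions of low degree on `F_2^ℓ` -/
noncomputable def UL (ℓ t : ℕ) : Submodule ℝ ((Fin ℓ → ZMod 2) → ℝ) :=
  (LowDeg (Fin ℓ) t).map
    (LinearMap.funLeft ℝ ℝ (fun y : Fin ℓ → ZMod 2 => (fun i => tb (y i) : Fin ℓ → Bool)))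

lemma mem_UL {t : ℕ} {g : (Fin ℓ → Bool) → ℝ} (hg : g ∈ LowDeg (Fin ℓ) t) :
    (fun y : Fin ℓ → ZMod 2 => g (fun i => tb (y i))) ∈ UL ℓ t :=
  Submodule.mem_map.2 ⟨g, hg, rfl⟩

lemma finrank_UL (t : ℕ) :
    (Module.finrank ℝ (UL ℓ t) : ℝ) ≤ ∑ i ∈ range (t + 1), (ℓ.choose i : ℝ) := by
  classical
  have h1 : Module.finrank ℝ (UL ℓ t) ≤ Module.finrank ℝ (LowDeg (Fin ℓ) t) :=
    Submodule.finrank_map_le _ _
  have h2 : LowDeg (Fin ℓ) t =
      Submodule.span ℝ (((univ.filter (fun S : Finset (Fin ℓ) => S.card ≤ t)).image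
        (fun S => (chi S : (Fin ℓ → Bool) → ℝ)) : Finset _) : Set ((Fin ℓ → Bool) → ℝ)) := by
    unfold LowDeg
    congr 1
    ext f
    simp only [Set.mem_setOf_eq, coe_image, Set.mem_image, mem_coe, mem_filter, mem_univ,
      true_and]
    constructor
    · rintro ⟨S, hS, rfl⟩; exact ⟨S, hS, rfl⟩
    · rintro ⟨S, hS, rfl⟩; exact ⟨S, hS, rfl⟩
  have h3 : Module.finrank ℝ (LowDeg (Fin ℓ) t) ≤
      (univ.filter (fun S : Finset (Fin ℓ) => S.card ≤ t)).card := by
    rw [h2]
    exact (finrank_span_finset_le_card _).trans Finset.card_image_le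
  have h4 : (univ.filter (fun S : Finset (Fin ℓ) => S.card ≤ t)).card =
      ∑ i ∈ range (t + 1), ℓ.choose i := by
    rw [Finset.card_eq_sum_card_fiberwise (f := Finset.card) (t := range (t + 1))]
    · refine Finset.sum_congr rfl (fun i hi => ?_)
      rw [mem_range] at hi
      have h5 : ((univ.filter (fun S : Finset (Fin ℓ) => S.card ≤ t)).filter
          (fun S => S.card = i)) = powersetCard i univ := by
        ext S
        simp only [mem_filter, mem_univ, true_and, mem_powersetCard, subset_univ]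
        constructor
        · exact fun h => h.2
        · exact fun h => ⟨by omega, h⟩
      rw [h5, card_powersetCard, card_univ, Fintype.card_fin]
    · intro S hS
      simp only [coe_filter, mem_univ, true_and, Set.mem_setOf_eq] at hS
      simp only [coe_range, Set.mem_Iio]
      omega
  have h6 : Module.finrank ℝ (UL ℓ t) ≤ ∑ i ∈ range (t + 1), ℓ.choose i := by
    rw [← h4]; exact h1.trans h3
  exact_mod_cast h6

end

section

variable {ℓ m r n : ℕ}

/-- the embedding of `F_2^ℓ` as the free coordinates -/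
def emb (e : Fin n ≃ (Fin ℓ × Fin m) ⊕ Fin r) (s : Fin ℓ → Fin m) (u : Fin ℓ → ZMod 2) :
    Fin n → ZMod 2 :=
  fun v => Sum.elim (fun w : Fin ℓ × Fin m => if w.2 = s w.1 then u w.1 else 0) (fun _ => 0) (e v)

lemma emb_add (e : Fin n ≃ (Fin ℓ × Fin m) ⊕ Fin r) (s : Fin ℓ → Fin m)
    (u v : Fin ℓ → ZMod 2) : emb e s (u + v) = emb e s u + emb e s v := by
  funext i
  simp only [emb, Pi.add_apply]
  cases h : e i with
  | inl w => by_cases hw : w.2 = s w.1 <;> simp [hw]
  | inr q => simp

lemma emb_inj (e : Fin n ≃ (Fin ℓ × Fin m) ⊕ Fin r) (s : Fin ℓ → Fin m)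
    {u : Fin ℓ → ZMod 2} (h : emb e s u = 0) : u = 0 := by
  funext i
  have h1 := congrFun h (e.symm (Sum.inl (i, s i)))
  simpa [emb] using h1

/-- the line function at `y` -/
noncomputable def lf (e : Fin n ≃ (Fin ℓ × Fin m) ⊕ Fin r) (s : Fin ℓ → Fin m)
    (f : (Fin n → ZMod 2) → ℝ) (y : Fin n → ZMod 2) (w : Fin ℓ → Bool) : ℝ :=
  f (y + emb e s (fun i => fb (w i)))

open Classical in
/-- few translates of the subspaces of free coordinates are bad for a small formula -/
lemma few_bad (e : Fin n ≃ (Fin ℓ × Fin m) ⊕ Fin r) (φ : Fml (Fin n)) (t T : ℕ)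
    (hT : 1 ≤ T) (hm : 2440980 * T ≤ m) (hs : φ.size ≤ t * T ^ 2) :
    ∑ s : Fin ℓ → Fin m, ∑ y : Fin n → ZMod 2,
      (if lf e s (fun y => if φ.eval (bits y) = true then (1 : ℝ) else 0) y ∈ LowDeg (Fin ℓ) t
        then (0 : ℝ) else 1) ≤ (1 / 4) ^ t * ((m : ℝ) ^ ℓ * 2 ^ n) := by
  have hn : n = ℓ * m + r := by
    have := Fintype.card_congr e
    simpa using this
  -- points as pairs
  let G : ((Fin ℓ × Fin m → Bool) × (Fin r → ZMod 2)) ≃ (Fin n → ZMod 2) :=
    ((Equiv.arrowCongr (Equiv.refl (Fin ℓ × Fin m)) eb.symm).prodCongr (Equiv.refl _)).trans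
      ((Equiv.sumArrowEquivProdArrow _ _ _).symm.trans (Equiv.arrowCongr e.symm (Equiv.refl _)))
  have hG : ∀ p v, G p v = Sum.elim (fun w => fb (p.1 w)) p.2 (e v) := by
    intro p v
    rfl
  -- formulas
  let ρ : (Fin r → ZMod 2) → Fin n → Fml (Fin ℓ × Fin m) := fun z v =>
    match e v with
    | .inl w => .var w
    | .inr q => .const (tb (z q))
  have hρ : ∀ z v, (ρ z v).size ≤ 1 := by
    intro z v
    simp only [ρ]
    cases h : e v with
    | inl w => simp [Fml.size]
    | inr q => simp [Fml.size]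
  -- the line functions of restrictions
  have key : ∀ (s : Fin ℓ → Fin m) (b : Fin ℓ × Fin m → Bool) (z : Fin r → ZMod 2),
      (lf e s (fun y => if φ.eval (bits y) = true then (1 : ℝ) else 0) (G (b, z)) ∈
        LowDeg (Fin ℓ) t) ↔
      (fun y : Fin ℓ → Bool => (fun b => if (sub (ρ z) φ).eval b = true then (1 : ℝ) else 0)
        (rs s b y)) ∈ LowDeg (Fin ℓ) t := by
    intro s b z
    -- a shift by the free part of `b`
    have h1 : ∀ w : Fin ℓ → Bool,
        lf e s (fun y => if φ.eval (bits y) = true then (1 : ℝ) else 0) (G (b, z)) w =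
        (fun b => if (sub (ρ z) φ).eval b = true then (1 : ℝ) else 0)
          (rs s b (fun i => xor (b (i, s i)) (w i))) := by
      intro w
      unfold lf
      simp only [sub_eval]
      have h2 : bits (G (b, z) + emb e s (fun i => fb (w i))) =
          fun v => (ρ z v).eval (rs s b (fun i => xor (b (i, s i)) (w i))) := by
        funext v
        simp only [bits, Pi.add_apply, hG, emb, ρ]
        cases h : e v with
        | inl q =>
          obtain ⟨q1, q2⟩ := q
          by_cases hq : q2 = s q1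
          · subst hq
            simp only [Sum.elim_inl, if_true, Fml.eval, rs]
            cases b (q1, s q1) <;> cases w q1 <;> simp [fb, tb] <;> decide
          · simp only [Sum.elim_inl, hq, if_false, Fml.eval, rs, add_zero, tb_fb]
        | inr q => simp [Fml.eval]
      rw [h2]
    -- shifts preserve the degree
    have hshift : ∀ (g : (Fin ℓ → Bool) → ℝ) (a : Fin ℓ → Bool), g ∈ LowDeg (Fin ℓ) t →
        (fun w : Fin ℓ → Bool => g (fun i => xor (a i) (w i))) ∈ LowDeg (Fin ℓ) t := by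
      intro g a hg
      induction hg using Submodule.span_induction with
      | mem f hf =>
        obtain ⟨S, hS, rfl⟩ := hf
        have h5 : (fun w : Fin ℓ → Bool => chi S (fun i => xor (a i) (w i))) =
            (chi S a) • chi S := by
          funext w
          simp only [Pi.smul_apply, smul_eq_mul, chi_eq]
          rw [← Finset.prod_mul_distrib]
          refine Finset.prod_congr rfl (fun i _ => ?_)
          cases a i <;> cases w i <;> simp [sg]
        rw [h5]
        exact Submodule.smul_mem _ _ (chi_mem S hS)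
      | zero => exact Submodule.zero_mem _
      | add x y _ _ hx hy => exact Submodule.add_mem _ hx hy
      | smul c x _ hx => exact Submodule.smul_mem _ c hx
    constructor
    · intro h
      have h6 := hshift _ (fun i => b (i, s i)) h
      have h7 : (fun w : Fin ℓ → Bool =>
          lf e s (fun y => if φ.eval (bits y) = true then (1 : ℝ) else 0) (G (b, z))
            (fun i => xor (b (i, s i)) (w i))) =
          (fun y : Fin ℓ → Bool => (fun b => if (sub (ρ z) φ).eval b = true then (1 : ℝ) else 0)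
            (rs s b y)) := by
        funext w
        rw [h1]
        congr 2
        funext i
        cases b (i, s i) <;> cases w i <;> rfl
      rw [← h7]
      exact h6
    · intro h
      have h6 := hshift _ (fun i => b (i, s i)) h
      have h7 : lf e s (fun y => if φ.eval (bits y) = true then (1 : ℝ) else 0) (G (b, z)) =
          (fun w : Fin ℓ → Bool =>
            (fun b => if (sub (ρ z) φ).eval b = true then (1 : ℝ) else 0)
              (rs s b (fun i => xor (b (i, s i)) (w i)))) := by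
        funext w
        exact h1 w
      rw [h7]
      exact h6
  have h8 : ∀ s : Fin ℓ → Fin m, ∑ y : Fin n → ZMod 2,
      (if lf e s (fun y => if φ.eval (bits y) = true then (1 : ℝ) else 0) y ∈ LowDeg (Fin ℓ) t
        then (0 : ℝ) else 1) =
      ∑ z : Fin r → ZMod 2, ∑ b : Fin ℓ × Fin m → Bool,
        (if (fun y : Fin ℓ → Bool => (fun b => if (sub (ρ z) φ).eval b = true then (1 : ℝ) else 0)
          (rs s b y)) ∈ LowDeg (Fin ℓ) t then (0 : ℝ) else 1) := by
    intro s
    rw [← Fintype.sum_equiv G (fun p => if lf e s (fun y => if φ.eval (bits y) = true then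
      (1 : ℝ) else 0) (G p) ∈ LowDeg (Fin ℓ) t then (0 : ℝ) else 1) _ (fun p => rfl),
      Fintype.sum_prod_type, Finset.sum_comm]
    refine Finset.sum_congr rfl (fun z _ => Finset.sum_congr rfl (fun b _ => ?_))
    exact if_congr (key s b z) rfl rfl
  rw [Finset.sum_congr rfl (fun s _ => h8 s), Finset.sum_comm]
  have h9 : ∀ z : Fin r → ZMod 2, ∑ s : Fin ℓ → Fin m, ∑ b : Fin ℓ × Fin m → Bool,
        (if (fun y : Fin ℓ → Bool => (fun b => if (sub (ρ z) φ).eval b = true then (1 : ℝ) else 0)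
          (rs s b y)) ∈ LowDeg (Fin ℓ) t then (0 : ℝ) else 1) ≤
        (1 / 4) ^ t * ((m : ℝ) ^ ℓ * 2 ^ (ℓ * m)) := by
    intro z
    have h10 := shr_formula (sub (ρ z) φ) t T hT hm ((sub_size _ (hρ z) φ).trans hs)
    unfold Shr at h10
    rw [Fintype.card_prod, Fintype.card_fin, Fintype.card_fin] at h10
    convert h10 using 1
  refine (Finset.sum_le_sum (fun z _ => h9 z)).trans (le_of_eq ?_)
  rw [Finset.sum_const, Finset.card_univ, Fintype.card_fun, Fintype.card_fin, ZMod.card,
    nsmul_eq_mul]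
  push_cast
  rw [hn, pow_add]
  ring

open Classical in
/-- the block argument -/
lemma block (e : Fin n ≃ (Fin ℓ × Fin m) ⊕ Fin r) (t T : ℕ)
    (hT : 1 ≤ T) (hm : 2440980 * T ≤ m)
    (A : Finset ((Fin n → ZMod 2) × (Fin n → ZMod 2)))
    (hA : ∀ x y z : Fin n → ZMod 2, (x, y) ∈ A → (x, y + z) ∈ A → (x + z, y) ∈ A → z = 0)
    (φ : (Fin n → ZMod 2) → Fml (Fin n)) (hs : ∀ x, (φ x).size ≤ t * T ^ 2)
    (hφ : ∀ x y, (x, y) ∈ A ↔ (φ x).eval (bits y) = true) :
    (A.card : ℝ) ≤ 4 ^ n * ((∑ i ∈ range (t + 1), (ℓ.choose i : ℝ)) / 2 ^ ℓ + (1 / 4) ^ t) := by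
  have hm1 : 1 ≤ m := by omega
  let F : (Fin n → ZMod 2) → (Fin n → ZMod 2) → ℝ := fun x y =>
    if (φ x).eval (bits y) = true then (1 : ℝ) else 0
  have hFA : ∀ x y, F x y = if (x, y) ∈ A then (1 : ℝ) else 0 := by
    intro x y
    simp only [F]
    exact if_congr (hφ x y).symm rfl rfl
  have hcard : (A.card : ℝ) = ∑ x, ∑ y, F x y := by
    rw [← Fintype.sum_prod_type' (f := fun x y => F x y)]
    simp only [hFA]
    simp
  -- the bad pairs for `s`
  let bad : (Fin ℓ → Fin m) → (Fin n → ZMod 2) → (Fin n → ZMod 2) → ℝ := fun s x y =>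
    if lf e s (F x) y ∈ LowDeg (Fin ℓ) t then (0 : ℝ) else 1
  have hbad : ∑ s, ∑ x, ∑ y, bad s x y ≤ 2 ^ n * ((1 / 4) ^ t * ((m : ℝ) ^ ℓ * 2 ^ n)) := by
    rw [Finset.sum_comm]
    refine (Finset.sum_le_sum (fun x _ => few_bad e (φ x) t T hT hm (hs x))).trans (le_of_eq ?_)
    rw [Finset.sum_const, Finset.card_univ, Fintype.card_fun, Fintype.card_fin, ZMod.card,
      nsmul_eq_mul]
    push_cast; rfl
  -- for one selection
  have hsel : ∀ s : Fin ℓ → Fin m, (A.card : ℝ) ≤
      4 ^ n * ((∑ i ∈ range (t + 1), (ℓ.choose i : ℝ)) / 2 ^ ℓ) + ∑ x, ∑ y, bad s x y := by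
    intro s
    -- the matrices of the blocks
    let M : (Fin n → ZMod 2) → (Fin n → ZMod 2) → (Fin ℓ → ZMod 2) → (Fin ℓ → ZMod 2) → ℝ :=
      fun x y u v => (1 - bad s (x + emb e s u) y) * F (x + emb e s u) (y + emb e s v)
    have hblock : ∀ x y, (∑ u, ∑ v, M x y u v) ≤
        2 ^ ℓ * ∑ i ∈ range (t + 1), (ℓ.choose i : ℝ) := by
      intro x y
      have h1 := Pool.Agent.W856.Corner.core_rank (G := Fin ℓ → ZMod 2) (K := ℝ)
        (univ.filter (fun p : (Fin ℓ → ZMod 2) × (Fin ℓ → ZMod 2) =>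
          (x + emb e s p.1, y + emb e s p.2) ∈ A))
        (by
          intro a b c h1 h2 h3
          simp only [mem_filter, mem_univ, true_and] at h1 h2 h3
          rw [emb_add, ← add_assoc] at h2 h3
          exact emb_inj e s (hA _ _ _ h1 h2 h3))
        (UL ℓ t) (M x y)
        (by
          intro u
          by_cases hb : lf e s (F (x + emb e s u)) y ∈ LowDeg (Fin ℓ) t
          · have h2 : M x y u = fun v : Fin ℓ → ZMod 2 =>
                lf e s (F (x + emb e s u)) y (fun i => tb (v i)) := by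
              funext v
              simp only [M, bad, if_pos hb, lf, fb_tb]
              ring
            rw [h2]
            exact mem_UL hb
          · have h2 : M x y u = 0 := by
              funext v
              simp [M, bad, if_neg hb]
            rw [h2]
            exact Submodule.zero_mem _)
        (by
          intro u v h
          simp only [mem_filter, mem_univ, true_and]
          by_contra hcon
          apply h
          simp only [M]
          rw [hFA, if_neg hcon, mul_zero])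
      have h2 : (∑ u, ∑ v, M x y u v) ≤
          ((∑ u, (univ.filter (fun v => M x y u v ≠ 0)).card : ℕ) : ℝ) := by
        push_cast
        refine Finset.sum_le_sum (fun u _ => ?_)
        have h3 : ∀ v, M x y u v ≤ if M x y u v ≠ 0 then (1 : ℝ) else 0 := by
          intro v
          have h4 : M x y u v = 0 ∨ M x y u v = 1 := by
            simp only [M, bad, F]
            split_ifs <;> simp
          rcases h4 with h4 | h4 <;> rw [h4] <;> simp
        refine (Finset.sum_le_sum (fun v _ => h3 v)).trans (le_of_eq ?_)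
        rw [Finset.sum_ite, Finset.sum_const_zero, add_zero, Finset.sum_const, nsmul_eq_mul,
          mul_one]
      have h5 : ((∑ u, (univ.filter (fun v => M x y u v ≠ 0)).card : ℕ) : ℝ) ≤
          ((Fintype.card (Fin ℓ → ZMod 2) * Module.finrank ℝ (UL ℓ t) : ℕ) : ℝ) := by
        exact_mod_cast h1
      refine h2.trans (h5.trans ?_)
      push_cast
      rw [Fintype.card_fun, Fintype.card_fin, ZMod.card]
      push_cast
      exact mul_le_mul_of_nonneg_left (finrank_UL t) (by positivity)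
    -- the sum over all blocks
    have hsum : (∑ x, ∑ y, ∑ u, ∑ v, M x y u v) ≥
        2 ^ ℓ * 2 ^ ℓ * ((A.card : ℝ) - ∑ x, ∑ y, bad s x y) := by
      have h1 : (∑ x, ∑ y, ∑ u, ∑ v, M x y u v) =
          ∑ u : Fin ℓ → ZMod 2, ∑ v : Fin ℓ → ZMod 2, ∑ x, ∑ y,
            (1 - bad s x y) * F x (y + emb e s v) := by
        have h2 : ∀ x : Fin n → ZMod 2, (∑ y, ∑ u, ∑ v, M x y u v) = ∑ u, ∑ v, ∑ y, M x y u v := by
          intro x
          rw [Finset.sum_comm]
          exact Finset.sum_congr rfl (fun u _ => Finset.sum_comm)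
        simp only [h2]
        rw [Finset.sum_comm]
        refine Finset.sum_congr rfl (fun u _ => ?_)
        rw [Finset.sum_comm]
        refine Finset.sum_congr rfl (fun v _ => ?_)
        exact Fintype.sum_equiv (Equiv.addRight (emb e s u)) _ _ (fun x => rfl)
      rw [h1]
      have h3 : ∀ v : Fin ℓ → ZMod 2, (A.card : ℝ) - ∑ x, ∑ y, bad s x y ≤
          ∑ x, ∑ y, (1 - bad s x y) * F x (y + emb e s v) := by
        intro v
        have h4 : (A.card : ℝ) = ∑ x, ∑ y, F x (y + emb e s v) := by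
          rw [hcard]
          refine Finset.sum_congr rfl (fun x _ => ?_)
          exact (Fintype.sum_equiv (Equiv.addRight (emb e s v)) _ _ (fun y => rfl)).symm
        rw [h4, ← Finset.sum_sub_distrib]
        refine Finset.sum_le_sum (fun x _ => ?_)
        rw [← Finset.sum_sub_distrib]
        refine Finset.sum_le_sum (fun y _ => ?_)
        have h5 : F x (y + emb e s v) ≤ 1 := by
          simp only [F]; split_ifs <;> norm_num
        have h6 : 0 ≤ bad s x y := by
          simp only [bad]; split_ifs <;> norm_num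
        nlinarith
      calc 2 ^ ℓ * 2 ^ ℓ * ((A.card : ℝ) - ∑ x, ∑ y, bad s x y)
          = ∑ _u : Fin ℓ → ZMod 2, ∑ _v : Fin ℓ → ZMod 2,
              ((A.card : ℝ) - ∑ x, ∑ y, bad s x y) := by
            simp only [Finset.sum_const, Finset.card_univ, Fintype.card_fun, Fintype.card_fin,
              ZMod.card, nsmul_eq_mul]
            push_cast
            ring
        _ ≤ _ := Finset.sum_le_sum (fun u _ => Finset.sum_le_sum (fun v _ => h3 v))
    have htot : (∑ x, ∑ y, ∑ u, ∑ v, M x y u v) ≤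
        2 ^ n * (2 ^ n * (2 ^ ℓ * ∑ i ∈ range (t + 1), (ℓ.choose i : ℝ))) := by
      refine (Finset.sum_le_sum (fun x _ => Finset.sum_le_sum (fun y _ => hblock x y))).trans
        (le_of_eq ?_)
      simp only [Finset.sum_const, Finset.card_univ, Fintype.card_fun, Fintype.card_fin,
        ZMod.card, nsmul_eq_mul]
      push_cast
      rfl
    have h7 : (A.card : ℝ) - ∑ x, ∑ y, bad s x y ≤
        4 ^ n * ((∑ i ∈ range (t + 1), (ℓ.choose i : ℝ)) / 2 ^ ℓ) := by
      have h8 : (0 : ℝ) < 2 ^ ℓ * 2 ^ ℓ := by positivity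
      have h9 := (ge_iff_le.1 hsum).trans htot
      refine le_of_mul_le_mul_left (h9.trans (le_of_eq ?_)) h8
      have h10 : (4 : ℝ) ^ n = 2 ^ n * 2 ^ n := by rw [← mul_pow]; norm_num
      rw [h10]
      field_simp
    linarith
  -- the average over the selections
  have hmr : (0 : ℝ) < (m : ℝ) ^ ℓ := by
    have : (0 : ℝ) < m := by exact_mod_cast hm1
    positivity
  have hav : (m : ℝ) ^ ℓ * A.card ≤ (m : ℝ) ^ ℓ *
      (4 ^ n * ((∑ i ∈ range (t + 1), (ℓ.choose i : ℝ)) / 2 ^ ℓ)) +
      2 ^ n * ((1 / 4) ^ t * ((m : ℝ) ^ ℓ * 2 ^ n)) := by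
    have h1 := Finset.sum_le_sum (fun s (_ : s ∈ (univ : Finset (Fin ℓ → Fin m))) => hsel s)
    rw [Finset.sum_add_distrib, Finset.sum_const, Finset.sum_const, Finset.card_univ,
      Fintype.card_fun, Fintype.card_fin, Fintype.card_fin, nsmul_eq_mul, nsmul_eq_mul] at h1
    push_cast at h1
    linarith
  refine le_of_mul_le_mul_left (hav.trans (le_of_eq ?_)) hmr
  have h10 : (4 : ℝ) ^ n = 2 ^ n * 2 ^ n := by rw [← mul_pow]; norm_num
  rw [h10]
  ring

end

/-- the constant for corners -/
noncomputable def cst2 : ℝ := 1 / (2000 * 2440980 ^ 2)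

lemma cst2_pos : 0 < cst2 := by unfold cst2; positivity

/-- one formula for each row -/
lemma rows_one (n S : ℕ) (A : Finset ((Fin n → ZMod 2) × (Fin n → ZMod 2)))
    (hA : ∀ x y z : Fin n → ZMod 2, (x, y) ∈ A → (x, y + z) ∈ A → (x + z, y) ∈ A → z = 0)
    (φ : (Fin n → ZMod 2) → Fml (Fin n)) (hs : ∀ x, (φ x).size ≤ S)
    (hφ : ∀ x y, (x, y) ∈ A ↔ (φ x).eval (bits y) = true) :
    (A.card : ℝ) ≤ 2 * 4 ^ n * Real.exp (-(cst2 * n ^ 2 / (S + n))) := by
  classical
  have htriv : (A.card : ℝ) ≤ 4 ^ n := by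
    have := Finset.card_le_univ A
    rw [Fintype.card_prod, Fintype.card_fun, Fintype.card_fin, ZMod.card, ← mul_pow] at this
    have h2 : (A.card : ℝ) ≤ ((2 * 2) ^ n : ℕ) := by exact_mod_cast this
    refine h2.trans (le_of_eq ?_)
    push_cast
    norm_num
  have hsmall : cst2 * (n : ℝ) ^ 2 / (S + n) ≤ 1 / 2 →
      (A.card : ℝ) ≤ 2 * 4 ^ n * Real.exp (-(cst2 * n ^ 2 / (S + n))) := by
    intro h
    have h2 := Real.add_one_le_exp (-(cst2 * (n : ℝ) ^ 2 / (S + n)))
    have h3 : (1 : ℝ) ≤ 2 * Real.exp (-(cst2 * n ^ 2 / (S + n))) := by linarith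
    calc (A.card : ℝ) ≤ 4 ^ n := htriv
      _ = 4 ^ n * 1 := (mul_one _).symm
      _ ≤ 4 ^ n * (2 * Real.exp (-(cst2 * n ^ 2 / (S + n)))) :=
          mul_le_mul_of_nonneg_left h3 (by positivity)
      _ = _ := by ring
  rcases Nat.eq_zero_or_pos n with hn | hn
  · subst hn
    apply hsmall
    simp
  · have hrw : (n : ℝ) ^ 2 / (20 * 2440980 ^ 2 * ((10 : ℕ) : ℝ) ^ 2 * (S + n)) =
        cst2 * (n : ℝ) ^ 2 / (S + n) := by
      unfold cst2
      have hnr : (0 : ℝ) < n := by exact_mod_cast hn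
      have hSr : (0 : ℝ) ≤ S := by positivity
      push_cast
      field_simp
      norm_num
    rcases params n S 10 (by norm_num) hn with ⟨ℓ, m, r, t, T', hsum, hT, hm, hSt, hkt, ht⟩ | h
    · rw [hrw] at ht
      have e : Fin n ≃ (Fin ℓ × Fin m) ⊕ Fin r := Fintype.equivOfCardEq (by simp [hsum])
      have h1 := block e t T' hT hm A hA φ (fun x => (hs x).trans hSt) hφ
      refine h1.trans ?_
      have h2 : (∑ i ∈ range (t + 1), (ℓ.choose i : ℝ)) / 2 ^ ℓ ≤ (1 / 4) ^ t := by
        have h3 := Pool.Agent.W856.Corner.binom_10 ℓ t (by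
          have : (10 * t : ℕ) ≤ ℓ := hkt.le
          have h4 : ((10 * t : ℕ) : ℝ) ≤ ℓ := by exact_mod_cast this
          push_cast at h4
          linarith)
        rw [div_le_iff₀ (by positivity)]
        refine h3.trans ?_
        have h5 : ((1 : ℝ) / 4) ^ t = 2 ^ (-(2 * t : ℝ)) := by
          rw [Real.rpow_neg (by norm_num), ← Real.rpow_natCast (1 / 4 : ℝ) t,
            Real.rpow_mul (by norm_num), ← Real.inv_rpow (by positivity)]
          norm_num
        rw [h5, ← Real.rpow_natCast 2 ℓ, ← Real.rpow_add (by norm_num)]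
        apply Real.rpow_le_rpow_of_exponent_le (by norm_num)
        have : (10 * t : ℕ) ≤ ℓ := hkt.le
        have h4 : ((10 * t : ℕ) : ℝ) ≤ ℓ := by exact_mod_cast this
        push_cast at h4
        have h6 : (0 : ℝ) ≤ t := by positivity
        linarith
      have h7 : ((1 : ℝ) / 4) ^ t ≤ Real.exp (-(cst2 * n ^ 2 / (S + n))) := by
        have h3 : ((1 : ℝ) / 4) ≤ Real.exp (-1) := by
          rw [Real.exp_neg, one_div]
          apply inv_anti₀ (Real.exp_pos 1)
          linarith [Real.exp_one_lt_d9]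
        calc ((1 : ℝ) / 4) ^ t ≤ Real.exp (-1) ^ t := pow_le_pow_left₀ (by norm_num) h3 t
          _ = Real.exp (-(t : ℝ)) := by rw [← Real.exp_nat_mul]; congr 1; ring
          _ ≤ _ := Real.exp_le_exp.2 (by linarith)
      have h8 : (∑ i ∈ range (t + 1), (ℓ.choose i : ℝ)) / 2 ^ ℓ + (1 / 4) ^ t ≤
          2 * Real.exp (-(cst2 * n ^ 2 / (S + n))) := by linarith
      calc (4 : ℝ) ^ n * ((∑ i ∈ range (t + 1), (ℓ.choose i : ℝ)) / 2 ^ ℓ + (1 / 4) ^ t)
          ≤ 4 ^ n * (2 * Real.exp (-(cst2 * n ^ 2 / (S + n)))) :=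
            mul_le_mul_of_nonneg_left h8 (by positivity)
        _ = _ := by ring
    · rw [hrw] at h
      exact hsmall h

/-- **Corner-free sets all of whose lines in one direction are unions of `T` sets decided by small
formulas.** -/
theorem corners (n S T : ℕ) (A : Finset ((Fin n → ZMod 2) × (Fin n → ZMod 2)))
    (hA : ∀ x y z : Fin n → ZMod 2, (x, y) ∈ A → (x, y + z) ∈ A → (x + z, y) ∈ A → z = 0)
    (Ls : (Fin n → ZMod 2) → Set (Fin n → ZMod 2))
    (hL : (∀ s, Ls s = {y | (s, y) ∈ A}) ∨ (∀ s, Ls s = {x | (x, s) ∈ A}) ∨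
      (∀ s, Ls s = {y | (s + y, y) ∈ A}))
    (h : ∀ s, ∃ φ : Fin T → Fml (Fin n), (∀ j, (φ j).size ≤ S) ∧
      ∀ y, y ∈ Ls s ↔ ∃ j, (φ j).eval (bits y) = true) :
    (A.card : ℝ) ≤ T * (2 * 4 ^ n * Real.exp (-(cst2 * n ^ 2 / (S + n)))) := by
  classical
  obtain ⟨A', hA', hc, hL'⟩ := Pool.Agent.W856.Corner.lines_reduce A hA Ls hL
  rw [← hc]
  choose φ hφ hφA using h
  have hone : ∀ j : Fin T, ((A'.filter (fun p => (φ p.1 j).eval (bits p.2) = true)).card : ℝ) ≤
      2 * 4 ^ n * Real.exp (-(cst2 * n ^ 2 / (S + n))) := by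
    intro j
    refine rows_one n S _ (fun x y z h1 h2 h3 => hA' x y z (mem_of_mem_filter _ h1)
      (mem_of_mem_filter _ h2) (mem_of_mem_filter _ h3)) (fun x => φ x j) (fun x => hφ x j) ?_
    intro x y
    rw [mem_filter]
    constructor
    · exact fun h => h.2
    · exact fun h => ⟨(hL' x y).1 ((hφA x y).2 ⟨j, h⟩), h⟩
  have hsub : A' ⊆ univ.biUnion (fun j : Fin T =>
      A'.filter (fun p => (φ p.1 j).eval (bits p.2) = true)) := by
    rintro ⟨x, y⟩ hp
    obtain ⟨j, hj⟩ := (hφA x y).1 ((hL' x y).2 hp)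
    simp only [mem_biUnion, mem_univ, true_and, mem_filter]
    exact ⟨j, hp, hj⟩
  calc (A'.card : ℝ) ≤ ((univ.biUnion (fun j : Fin T =>
        A'.filter (fun p => (φ p.1 j).eval (bits p.2) = true))).card : ℝ) := by
        exact_mod_cast Finset.card_le_card hsub
    _ ≤ ((∑ j : Fin T, (A'.filter (fun p => (φ p.1 j).eval (bits p.2) = true)).card : ℕ) : ℝ) := by
        exact_mod_cast Finset.card_biUnion_le
    _ = ∑ j : Fin T, ((A'.filter (fun p => (φ p.1 j).eval (bits p.2) = true)).card : ℝ) := by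
        push_cast; rfl
    _ ≤ ∑ _j : Fin T, 2 * 4 ^ n * Real.exp (-(cst2 * n ^ 2 / (S + n))) :=
        Finset.sum_le_sum (fun j _ => hone j)
    _ = _ := by simp

end Pool.Agent.Y607.LP
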