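import Pool.Agent.Helper600R2.Sharp.Restr

/-!
# Patterns in sets of low complexity: one surviving coordinate per block
-/

set_option autoImplicit false

namespace Pool.Agent.Y607.LP

open Pool.Agent.H564R2.QF Pool.Agent.Helper600R2.Sharp Finset

variable {E : Type} [Fintype E] [DecidableEq E] {m : ℕ}

open Classical in
/-- the proportion of the restrictions (one surviving variable per block) for which the degree is
larger than `t` is at most `ε` -/
def Shr (t : ℕ) (ε : ℝ) (h : (E × Fin m → Bool) → ℝ) : Prop :=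
  ∑ s : E → Fin m, ∑ b : E × Fin m → Bool,
    (if (fun y : E → Bool => h (rs s b y)) ∈ LowDeg E t then (0 : ℝ) else 1) ≤
      ε * (m ^ Fintype.card E * 2 ^ Fintype.card (E × Fin m))

theorem shr_formula (φ : Fml (E × Fin m)) (t T : ℕ) (hT : 1 ≤ T) (hm : 2440980 * T ≤ m)
    (hs : φ.size ≤ t * T ^ 2) :
    Shr t ((1 / 4) ^ t) (fun z => if φ.eval z = true then (1 : ℝ) else 0) := by
  classical
  set F : (E × Fin m → Bool) → ℝ := fun z => if φ.eval z = true then (1 : ℝ) else 0 with hFdef
  have hF : ∀ z, F z = 0 ∨ F z = 1 := by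
    intro z
    simp only [hFdef]
    split_ifs <;> simp
  set N : ℝ := m ^ Fintype.card E * 2 ^ Fintype.card (E × Fin m) with hN
  have hNpos : 0 ≤ N := by positivity
  have h1 : ∑ s : E → Fin m, ∑ b : E × Fin m → Bool,
      (if (fun y : E → Bool => F (rs s b y)) ∈ LowDeg E t then (0 : ℝ) else 1) ≤
      ∑ s : E → Fin m, ∑ b : E × Fin m → Bool,
        ∑ j ∈ Finset.Ioc t (Fintype.card E), 4 ^ j * W j (fun y => F (rs s b y)) := by
    refine Finset.sum_le_sum (fun s _ => Finset.sum_le_sum (fun b _ => ?_))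
    split_ifs with h
    · exact Finset.sum_nonneg (fun j _ => mul_nonneg (by positivity) (W_nonneg j _))
    · exact bad_le (fun y => F (rs s b y)) (fun y => hF _) t h
  have h2 : ∑ s : E → Fin m, ∑ b : E × Fin m → Bool,
        ∑ j ∈ Finset.Ioc t (Fintype.card E), 4 ^ j * W j (fun y => F (rs s b y)) =
      ∑ j ∈ Finset.Ioc t (Fintype.card E), ∑ s : E → Fin m, ∑ b : E × Fin m → Bool,
        4 ^ j * W j (fun y => F (rs s b y)) := by
    have h4 : ∀ s : E → Fin m, ∑ b : E × Fin m → Bool,
        ∑ j ∈ Finset.Ioc t (Fintype.card E), 4 ^ j * W j (fun y => F (rs s b y)) =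
        ∑ j ∈ Finset.Ioc t (Fintype.card E), ∑ b : E × Fin m → Bool,
          4 ^ j * W j (fun y => F (rs s b y)) := fun s => Finset.sum_comm
    simp only [h4]
    rw [Finset.sum_comm]
  refine h1.trans ?_
  rw [h2]
  calc ∑ j ∈ Finset.Ioc t (Fintype.card E), ∑ s : E → Fin m, ∑ b : E × Fin m → Bool,
        4 ^ j * W j (fun y => F (rs s b y))
      ≤ ∑ j ∈ Finset.Ioc t (Fintype.card E), N * (3 * (1 / 4) ^ j) := by
        refine Finset.sum_le_sum (fun j hj => ?_)
        rw [Finset.mem_Ioc] at hj
        have hm1 : 1 ≤ m := by omega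
        obtain ⟨P, hP, hPf⟩ := formula_approx φ j T (by omega) hT
          (hs.trans (Nat.mul_le_mul_right _ hj.1.le))
        exact total_weight F P j (12780 * j * T) (by omega) hm1 hF hP hPf (by
          calc 191 * (12780 * j * T) = (2440980 * T) * j := by ring
            _ ≤ m * j := Nat.mul_le_mul_right _ hm)
    _ = N * ∑ j ∈ Finset.Ioc t (Fintype.card E), (3 * (1 / 4 : ℝ) ^ j) := by
        rw [Finset.mul_sum]
    _ ≤ N * (1 / 4) ^ t := mul_le_mul_of_nonneg_left (geom t _) hNpos
    _ = (1 / 4) ^ t * N := mul_comm _ _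

section

variable {L : Type} [Fintype L] [DecidableEq L]

/-- the assignment `x` with `σ` applied at the coordinates in `W` -/
def mix {ι : Type} [DecidableEq ι] (σ : ι → Equiv.Perm L) (W : Finset ι) (x : ι → L) : ι → L :=
  fun v => if v ∈ W then σ v (x v) else x v

/-- the line through `x` -/
def line (σ : E × Fin m → Equiv.Perm L) (s : E → Fin m) (x : E × Fin m → L) (y : E → Bool) :
    E × Fin m → L :=
  fun v => if v.2 = s v.1 ∧ y v.1 = true then σ v (x v) else x v

/-- the binary function attached to `u` -/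
def bin (σ : E × Fin m → Equiv.Perm L) (f : (E × Fin m → L) → ℝ) (u : E × Fin m → L) :
    (E × Fin m → Bool) → ℝ :=
  fun b => f (fun v => if b v = true then σ v (u v) else u v)

/-- for fixed `s` and `b`, the base point as a function of `u` -/
def baseE (σ : E × Fin m → Equiv.Perm L) (s : E → Fin m) (b : E × Fin m → Bool) :
    (E × Fin m → L) ≃ (E × Fin m → L) :=
  Equiv.piCongrRight (fun v => if ¬ v.2 = s v.1 ∧ b v = true then σ v else Equiv.refl L)

omit [Fintype E] [DecidableEq E] [Fintype L] [DecidableEq L] in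
lemma bin_rs (σ : E × Fin m → Equiv.Perm L) (f : (E × Fin m → L) → ℝ) (u : E × Fin m → L)
    (s : E → Fin m) (b : E × Fin m → Bool) (y : E → Bool) :
    bin σ f u (rs s b y) = f (line σ s (baseE σ s b u) y) := by
  unfold bin
  congr 1
  funext v
  by_cases hv : v.2 = s v.1
  · simp [rs, line, baseE, hv]
  · by_cases hb : b v = true
    · simp [rs, line, baseE, hv, hb]
    · simp [rs, line, baseE, hv, hb]

open Classical in
theorem transfer (σ : E × Fin m → Equiv.Perm L) (f : (E × Fin m → L) → ℝ) (t : ℕ) (ε : ℝ)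
    (h : ∀ u, Shr t ε (bin σ f u)) :
    ∑ s : E → Fin m, ∑ x : E × Fin m → L,
      (if (fun y : E → Bool => f (line σ s x y)) ∈ LowDeg E t then (0 : ℝ) else 1) ≤
      ε * (m ^ Fintype.card E * (Fintype.card L : ℝ) ^ Fintype.card (E × Fin m)) := by
  have h1 : ∀ (s : E → Fin m) (b : E × Fin m → Bool),
      ∑ u : E × Fin m → L,
        (if (fun y : E → Bool => bin σ f u (rs s b y)) ∈ LowDeg E t then (0 : ℝ) else 1) =
      ∑ x : E × Fin m → L,
        (if (fun y : E → Bool => f (line σ s x y)) ∈ LowDeg E t then (0 : ℝ) else 1) := by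
    intro s b
    refine Fintype.sum_equiv (baseE σ s b) _ _ (fun u => ?_)
    simp only [bin_rs]
  have h2 : ∑ u : E × Fin m → L, ∑ s : E → Fin m, ∑ b : E × Fin m → Bool,
      (if (fun y : E → Bool => bin σ f u (rs s b y)) ∈ LowDeg E t then (0 : ℝ) else 1) =
      2 ^ Fintype.card (E × Fin m) * ∑ s : E → Fin m, ∑ x : E × Fin m → L,
        (if (fun y : E → Bool => f (line σ s x y)) ∈ LowDeg E t then (0 : ℝ) else 1) := by
    rw [Finset.sum_comm, Finset.mul_sum]
    refine Finset.sum_congr rfl (fun s _ => ?_)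
    rw [Finset.sum_comm, Finset.sum_congr rfl (fun b _ => h1 s b), Finset.sum_const,
      Finset.card_univ, nsmul_eq_mul]
    congr 1
    rw [Fintype.card_fun, Fintype.card_bool]
    push_cast; rfl
  have h3 : ∑ u : E × Fin m → L, ∑ s : E → Fin m, ∑ b : E × Fin m → Bool,
      (if (fun y : E → Bool => bin σ f u (rs s b y)) ∈ LowDeg E t then (0 : ℝ) else 1) ≤
      (Fintype.card L : ℝ) ^ Fintype.card (E × Fin m) *
        (ε * (m ^ Fintype.card E * 2 ^ Fintype.card (E × Fin m))) := by
    refine (Finset.sum_le_sum (fun u _ => h u)).trans (le_of_eq ?_)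
    rw [Finset.sum_const, Finset.card_univ, nsmul_eq_mul, Fintype.card_fun]
    push_cast; rfl
  rw [h2] at h3
  have h4 : (0 : ℝ) < 2 ^ Fintype.card (E × Fin m) := by positivity
  refine le_of_mul_le_mul_left (h3.trans (le_of_eq ?_)) h4
  ring

omit [Fintype L] [DecidableEq L] in
/-- the polynomial method: a set without patterns has large degree on every line space through
one of its points -/
theorem polynomial_method {κ : Type} [Fintype κ] (σ : κ → E × Fin m → Equiv.Perm L)
    (f : (E × Fin m → L) → ℝ) (hf : ∀ x, f x = 0 ∨ f x = 1) (t : ℕ)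
    (hcard : Fintype.card κ * t < Fintype.card E)
    (hfree : ∀ (x : E × Fin m → L) (W : Finset (E × Fin m)),
      (∀ i, f (mix (σ i) W x) = 1) → W = ∅)
    (s : E → Fin m) (x : E × Fin m → L) (hx : f x = 1) :
    ∃ i, (fun y : E → Bool => f (line (σ i) s x y)) ∉ LowDeg E t := by
  classical
  by_contra hcon
  push Not at hcon
  have h1 : ∏ i : κ, (fun y : E → Bool => f (line (σ i) s x y)) ∈
      LowDeg E (∑ _i : κ, t) := LowDeg.prod univ (fun _ => t) _ (fun i _ => hcon i)
  have h2 : ∑ _i : κ, t = Fintype.card κ * t := by simp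
  rw [h2] at h1
  have h3 := lowDeg_coef h1 univ (by rw [Finset.card_univ]; exact hcard)
  have h4 : ∀ y : E → Bool, (∏ i : κ, (fun y : E → Bool => f (line (σ i) s x y))) y =
      if y = (fun _ => false) then 1 else 0 := by
    intro y
    rw [Finset.prod_apply]
    split_ifs with hy
    · subst hy
      refine Finset.prod_eq_one (fun i _ => ?_)
      have : line (σ i) s x (fun _ => false) = x := by
        funext v
        simp [line]
      rw [this, hx]
    · -- some coordinate is switched on
      obtain ⟨e, he⟩ := Function.ne_iff.1 hy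
      have he' : y e = true := by simpa using he
      have h5 : ¬ ∀ i, f (mix (σ i) (univ.filter (fun v : E × Fin m =>
          v.2 = s v.1 ∧ y v.1 = true)) x) = 1 := by
        intro hall
        have := hfree x _ hall
        have h6 : (e, s e) ∈ univ.filter (fun v : E × Fin m => v.2 = s v.1 ∧ y v.1 = true) := by
          simp [he']
        rw [this] at h6
        simp at h6
      push Not at h5
      obtain ⟨i, hi⟩ := h5
      refine Finset.prod_eq_zero (mem_univ i) ?_
      have h7 : line (σ i) s x y = mix (σ i) (univ.filter (fun v : E × Fin m =>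
          v.2 = s v.1 ∧ y v.1 = true)) x := by
        funext v
        simp [line, mix]
      show f (line (σ i) s x y) = 0
      rw [h7]
      exact (hf _).resolve_right hi
  have h5 : coef (∏ i : κ, (fun y : E → Bool => f (line (σ i) s x y))) univ =
      chi univ (fun _ : E => false) / 2 ^ Fintype.card E := by
    rw [coef]
    congr 1
    simp only [h4]
    simp
  rw [h5] at h3
  have h6 : chi (univ : Finset E) (fun _ : E => false) = 1 := by simp [chi]
  rw [h6] at h3
  have h7 : (0 : ℝ) < 1 / 2 ^ Fintype.card E := by positivity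
  linarith

/-- **Sets without patterns in which all lines have low degree are small.** -/
theorem core {κ : Type} [Fintype κ] (σ : κ → E × Fin m → Equiv.Perm L) (hm : 1 ≤ m)
    (A : Finset (E × Fin m → L)) (f : (E × Fin m → L) → ℝ) (hf : ∀ x, f x = 0 ∨ f x = 1)
    (hfA : ∀ x, f x = 1 ↔ x ∈ A) (t : ℕ) (ε : ℝ)
    (hshr : ∀ i u, Shr t ε (bin (σ i) f u))
    (hcard : Fintype.card κ * t < Fintype.card E)
    (hfree : ∀ (x : E × Fin m → L) (W : Finset (E × Fin m)),
      (∀ i, mix (σ i) W x ∈ A) → W = ∅) :
    (A.card : ℝ) ≤ Fintype.card κ * ε * (Fintype.card L : ℝ) ^ Fintype.card (E × Fin m) := by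
  classical
  have h1 : ∑ _s : E → Fin m, (A.card : ℝ) ≤ ∑ i : κ, ∑ s : E → Fin m, ∑ x : E × Fin m → L,
      (if (fun y : E → Bool => f (line (σ i) s x y)) ∈ LowDeg E t then (0 : ℝ) else 1) := by
    rw [Finset.sum_comm]
    refine Finset.sum_le_sum (fun s _ => ?_)
    rw [Finset.sum_comm]
    calc (A.card : ℝ) = ∑ _x ∈ A, (1 : ℝ) := by simp
      _ ≤ ∑ x ∈ A, ∑ i : κ,
          (if (fun y : E → Bool => f (line (σ i) s x y)) ∈ LowDeg E t then (0 : ℝ) else 1) := by
        refine Finset.sum_le_sum (fun x hx => ?_)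
        obtain ⟨i, hi⟩ := polynomial_method σ f hf t hcard (fun x W h => hfree x W
          (fun i => (hfA _).1 (h i))) s x ((hfA x).2 hx)
        have := Finset.single_le_sum (f := fun i : κ =>
          (if (fun y : E → Bool => f (line (σ i) s x y)) ∈ LowDeg E t then (0 : ℝ) else 1))
          (s := univ) (fun i _ => by split_ifs <;> norm_num) (mem_univ i)
        simpa [if_neg hi] using this
      _ ≤ _ := Finset.sum_le_sum_of_subset_of_nonneg (Finset.subset_univ _)
          (fun x _ _ => Finset.sum_nonneg (fun i _ => by split_ifs <;> norm_num))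
  have h2 : ∑ i : κ, ∑ s : E → Fin m, ∑ x : E × Fin m → L,
      (if (fun y : E → Bool => f (line (σ i) s x y)) ∈ LowDeg E t then (0 : ℝ) else 1) ≤
      ∑ _i : κ, ε * (m ^ Fintype.card E * (Fintype.card L : ℝ) ^ Fintype.card (E × Fin m)) :=
    Finset.sum_le_sum (fun i _ => transfer (σ i) f t ε (hshr i))
  have h3 := h1.trans h2
  rw [Finset.sum_const, Finset.sum_const, Finset.card_univ, Finset.card_univ, nsmul_eq_mul,
    nsmul_eq_mul, Fintype.card_fun, Fintype.card_fin] at h3
  have hmr : (0 : ℝ) < (m : ℝ) ^ Fintype.card E := by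
    have : (0 : ℝ) < m := by exact_mod_cast hm
    positivity
  push_cast at h3
  refine le_of_mul_le_mul_left (h3.trans (le_of_eq ?_)) hmr
  ring

end

end Pool.Agent.Y607.LP
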