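import Pool.Agent.Y607.LP.Gen3
import Mathlib.Combinatorics.Additive.AP.Three.Behrend

/-!
# Arithmetic progressions in sets given by formulas on the digits
-/

set_option autoImplicit false

namespace Pool.Agent.Y607.LP

open Pool.Agent.H564R2.QF Finset

/-- the formula `φ` accepts the integer `a`: the leaf `(i, P)` has the value `P (i-th digit of a)`,
digits in base `b` -/
def Accepts (b : ℕ) {n : ℕ} (φ : Fml (Fin n × (ℕ → Bool))) (a : ℕ) : Prop :=
  φ.eval (fun v => v.2 (a / b ^ (v.1 : ℕ) % b)) = true

/-- `A` is the union of `T` sets of integers below `b ^ n`, each of them decided by a formula with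
at most `S` leaves -/
def Union (b n S T : ℕ) (A : Finset ℕ) : Prop :=
  ∃ φ : Fin T → Fml (Fin n × (ℕ → Bool)), (∀ j, (φ j).size ≤ S) ∧
    ∀ a, a ∈ A ↔ a < b ^ n ∧ ∃ j, Accepts b (φ j) a

/-- the integer with the digits `x` -/
def num {b n : ℕ} (x : Fin n → Fin b) : ℕ := (finFunctionFinEquiv x : ℕ)

lemma num_lt {b n : ℕ} (x : Fin n → Fin b) : num x < b ^ n := (finFunctionFinEquiv x).2

lemma num_eq {b n : ℕ} (x : Fin n → Fin b) : num x = ∑ i, (x i : ℕ) * b ^ (i : ℕ) := by
  rw [num, finFunctionFinEquiv_apply]

lemma num_injective {b n : ℕ} : Function.Injective (num : (Fin n → Fin b) → ℕ) := by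
  intro x y h
  exact finFunctionFinEquiv.injective (Fin.ext h)

lemma num_surj {b n a : ℕ} (ha : a < b ^ n) : ∃ x : Fin n → Fin b, num x = a :=
  ⟨finFunctionFinEquiv.symm ⟨a, ha⟩, by rw [num, Equiv.apply_symm_apply]⟩

lemma digit_num {b n : ℕ} (x : Fin n → Fin b) (i : Fin n) :
    num x / b ^ (i : ℕ) % b = x i := by
  have h := congrFun (finFunctionFinEquiv.symm_apply_apply x) i
  have h2 := congrArg Fin.val h
  rw [← h2]
  rfl

/-- the bound for progressions whose difference has only the digits `0` and `1` -/
theorem ap_bound (k b n S T : ℕ) (hk : 2 ≤ k) (hkb : k ≤ b) (A : Finset ℕ)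
    (hA : Union b n S T A)
    (hfree : ∀ a d : ℕ, 0 < d → (∀ i, d / b ^ i % b ≤ 1) → ¬ ∀ i < k, a + i * d ∈ A) :
    (A.card : ℝ) ≤ T * (2 * (b : ℝ) ^ n *
      Real.exp (-(cstG * n ^ 2 / ((b : ℝ) ^ 6 * k ^ 2 * (S + n))))) := by
  classical
  obtain ⟨φ, hS, hA⟩ := hA
  let B : Finset (Fin n → Fin b) := univ.filter (fun x => num x ∈ A)
  have hcard : B.card = A.card := by
    have h1 : B.image num = A := by
      ext a
      simp only [B, mem_image, mem_filter, mem_univ, true_and]
      constructor
      · rintro ⟨x, hx, rfl⟩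
        exact hx
      · intro ha
        obtain ⟨x, rfl⟩ := num_surj ((hA a).1 ha).1
        exact ⟨x, ha, rfl⟩
    rw [← h1, card_image_of_injective _ num_injective]
  let φ' : Fin T → Fml (Fin n × (Fin b → Bool)) := fun j =>
    sub (fun v => .var (v.1, fun l => v.2 l)) (φ j)
  have hB : ∀ x, x ∈ B ↔ ∃ j, Accp (φ' j) x := by
    intro x
    simp only [B, mem_filter, mem_univ, true_and]
    rw [hA]
    constructor
    · rintro ⟨_, j, hj⟩
      refine ⟨j, ?_⟩
      unfold Accepts at hj
      simp only [digit_num] at hj
      unfold Accp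
      simp only [φ']
      rw [sub_eval]
      exact hj
    · rintro ⟨j, hj⟩
      refine ⟨num_lt x, j, ?_⟩
      unfold Accepts
      simp only [digit_num]
      unfold Accp at hj
      simp only [φ'] at hj
      rw [sub_eval] at hj
      exact hj
  have hb : 2 ≤ b := hk.trans hkb
  have h := mainG k n S T hk (L := Fin b)
    (fun i _ _ => ⟨i, lt_of_lt_of_le i.2 hkb⟩) B φ' (by
      intro j
      exact (sub_size _ (fun v => le_rfl) (φ j)).trans (hS j)) hB (by
      intro x W h
      by_contra hW
      have hWne : W.Nonempty := Finset.nonempty_iff_ne_empty.2 hW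
      -- the difference
      let one : Fin n → Fin b := fun v => if v ∈ W then ⟨1, by omega⟩ else ⟨0, by omega⟩
      let base : Fin n → Fin b := fun v => if v ∈ W then ⟨0, by omega⟩ else x v
      have hone : num one = ∑ v ∈ W, b ^ (v : ℕ) := by
        rw [num_eq, ← Finset.sum_filter_add_sum_filter_not univ (fun v => v ∈ W)]
        have e1 : ∑ v ∈ univ.filter (fun v => v ∈ W), ((one v : Fin b) : ℕ) * b ^ (v : ℕ) =
            ∑ v ∈ W, b ^ (v : ℕ) := by
          have : univ.filter (fun v => v ∈ W) = W := by ext v; simp
          rw [this]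
          refine Finset.sum_congr rfl (fun v hv => ?_)
          simp [one, hv]
        have e2 : ∑ v ∈ univ.filter (fun v => ¬ v ∈ W), ((one v : Fin b) : ℕ) * b ^ (v : ℕ) = 0 := by
          refine Finset.sum_eq_zero (fun v hv => ?_)
          simp only [mem_filter, mem_univ, true_and] at hv
          simp [one, hv]
        rw [e1, e2, add_zero]
      refine hfree (num base) (num one) ?_ ?_ ?_
      · rw [hone]
        exact Finset.sum_pos (fun v _ => Nat.pow_pos (by omega)) hWne
      · intro i
        by_cases hi : i < n
        · have := digit_num one ⟨i, hi⟩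
          simp only at this
          rw [this]
          simp only [one]
          split_ifs <;> simp
        · have h1 : num one < b ^ i := lt_of_lt_of_le (num_lt one)
            (Nat.pow_le_pow_right (by omega) (by omega))
          rw [Nat.div_eq_of_lt h1]
          simp
      · intro i hi
        have h1 := h ⟨i, hi⟩
        simp only [B, mem_filter, mem_univ, true_and] at h1
        have h2 : num (put (fun _ _ => (⟨i, lt_of_lt_of_le hi hkb⟩ : Fin b)) W x) =
            num base + i * num one := by
          rw [num_eq, num_eq, num_eq, Finset.mul_sum, ← Finset.sum_add_distrib]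
          refine Finset.sum_congr rfl (fun v _ => ?_)
          by_cases hv : v ∈ W
          · simp [put, base, one, hv]
          · simp [put, base, one, hv]
        rw [← h2]
        exact h1)
  rw [← hcard]
  simpa using h

end Pool.Agent.Y607.LP
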