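import Pool.Agent.Y607.LP.Form

/-!
# Patterns given by arbitrary maps of the alphabet
-/

set_option autoImplicit false

namespace Pool.Agent.Y607.LP

open Pool.Agent.H564R2.QF Pool.Agent.Helper600R2.Sharp Finset

variable {E : Type} [Fintype E] [DecidableEq E] {m : ℕ}

/-- few selections leave many variables of a small set; general form -/
lemma count_surv' (S : Finset (E × Fin m)) (j D lam : ℕ) (hm : 1 ≤ m) (hS : S.card ≤ D)
    (hD : lam * D ≤ m * j) :
    ((univ.filter (fun s : E → Fin m => (surv s S).card = j)).card : ℝ) * (lam + 1 : ℝ) ^ j ≤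
      m ^ Fintype.card E * 3 ^ j := by
  have hmr : (0 : ℝ) < m := by exact_mod_cast hm
  have h1 : ((univ.filter (fun s : E → Fin m => (surv s S).card = j)).card : ℝ) *
      (lam + 1 : ℝ) ^ j ≤ ∑ s : E → Fin m, (lam + 1 : ℝ) ^ (surv s S).card := by
    rw [← nsmul_eq_mul, ← Finset.sum_const]
    calc ∑ s ∈ univ.filter (fun s : E → Fin m => (surv s S).card = j), (lam + 1 : ℝ) ^ j
        = ∑ s ∈ univ.filter (fun s : E → Fin m => (surv s S).card = j),
            (lam + 1 : ℝ) ^ (surv s S).card := by
          refine Finset.sum_congr rfl (fun s hs => ?_)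
          simp only [mem_filter, mem_univ, true_and] at hs
          rw [hs]
      _ ≤ _ := Finset.sum_le_sum_of_subset_of_nonneg (Finset.filter_subset _ _)
          (fun s _ _ => by positivity)
  have h2 : ∀ s : E → Fin m, (lam + 1 : ℝ) ^ (surv s S).card =
      ∏ e, (if (e, s e) ∈ S then (lam + 1 : ℝ) else 1) := by
    intro s
    rw [surv, ← Finset.prod_const, Finset.prod_filter]
  have h3 : ∑ s : E → Fin m, (lam + 1 : ℝ) ^ (surv s S).card =
      ∏ e, ∑ i : Fin m, (if (e, i) ∈ S then (lam + 1 : ℝ) else 1) := by
    simp only [h2]
    have := Finset.prod_univ_sum (fun _ : E => (univ : Finset (Fin m)))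
      (fun e i => if (e, i) ∈ S then (lam + 1 : ℝ) else 1)
    rw [Fintype.piFinset_univ] at this
    exact this.symm
  have h4 : ∀ e, ∑ i : Fin m, (if (e, i) ∈ S then (lam + 1 : ℝ) else 1) ≤
      m * Real.exp (lam * (∑ i : Fin m, if (e, i) ∈ S then (1 : ℝ) else 0) / m) := by
    intro e
    have h5 : ∑ i : Fin m, (if (e, i) ∈ S then (lam + 1 : ℝ) else 1) =
        m + lam * ∑ i : Fin m, (if (e, i) ∈ S then (1 : ℝ) else 0) := by
      have : ∀ i : Fin m, (if (e, i) ∈ S then (lam + 1 : ℝ) else 1) =
          1 + lam * (if (e, i) ∈ S then (1 : ℝ) else 0) := by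
        intro i; split_ifs <;> ring
      simp only [this]
      rw [Finset.sum_add_distrib, ← Finset.mul_sum]
      simp
    rw [h5]
    have h6 := Real.add_one_le_exp (lam * (∑ i : Fin m, if (e, i) ∈ S then (1 : ℝ) else 0) / m)
    calc (m : ℝ) + lam * ∑ i : Fin m, (if (e, i) ∈ S then (1 : ℝ) else 0)
        = m * (lam * (∑ i : Fin m, if (e, i) ∈ S then (1 : ℝ) else 0) / m + 1) := by
          field_simp; ring
      _ ≤ _ := mul_le_mul_of_nonneg_left h6 hmr.le
  have h7 : ∑ e : E, ∑ i : Fin m, (if (e, i) ∈ S then (1 : ℝ) else 0) = S.card := by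
    rw [← Fintype.sum_prod_type' (f := fun e i => if (e, i) ∈ S then (1 : ℝ) else 0)]
    rw [Finset.sum_ite_mem]
    simp
  have h8 : ∑ s : E → Fin m, (lam + 1 : ℝ) ^ (surv s S).card ≤
      m ^ Fintype.card E * 3 ^ j := by
    rw [h3]
    calc ∏ e, ∑ i : Fin m, (if (e, i) ∈ S then (lam + 1 : ℝ) else 1)
        ≤ ∏ e, (m * Real.exp (lam * (∑ i : Fin m, if (e, i) ∈ S then (1 : ℝ) else 0) / m)) := by
          refine Finset.prod_le_prod (fun e _ => ?_) (fun e _ => h4 e)
          exact Finset.sum_nonneg (fun i _ => by split_ifs <;> positivity)
      _ = m ^ Fintype.card E * Real.exp (lam * S.card / m) := by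
          rw [Finset.prod_mul_distrib, Finset.prod_const, Finset.card_univ, ← Real.exp_sum,
            ← Finset.sum_div, ← Finset.mul_sum, h7]
      _ ≤ m ^ Fintype.card E * 3 ^ j := by
          apply mul_le_mul_of_nonneg_left _ (by positivity)
          have h9 : (lam * (S.card : ℝ) / m) ≤ j := by
            rw [div_le_iff₀ hmr]
            have h10 : lam * S.card ≤ j * m := by
              calc lam * S.card ≤ lam * D := Nat.mul_le_mul_left _ hS
                _ ≤ m * j := hD
                _ = j * m := mul_comm _ _
            exact_mod_cast h10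
          calc Real.exp (lam * S.card / m) ≤ Real.exp j := Real.exp_le_exp.mpr h9
            _ = Real.exp 1 ^ j := by rw [← Real.exp_nat_mul, mul_one]
            _ ≤ 3 ^ j := by
                apply pow_le_pow_left₀ (Real.exp_pos 1).le
                linarith [Real.exp_one_lt_d9]
  exact h1.trans h8

/-- the weights of random restrictions of a function which is close to a function of low degree -/
lemma total_weight' (f p : (E × Fin m → Bool) → ℝ) (j D lam : ℕ) (η : ℝ) (hm : 1 ≤ m)
    (hf : ∀ z, f z = 0 ∨ f z = 1) (hp : p ∈ LowDeg (E × Fin m) D) (hη0 : 0 ≤ η) (hη : η ≤ 1 / 4)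
    (hpf : ∀ z, |p z - f z| ≤ η) (hD : lam * D ≤ m * j) :
    ∑ s : E → Fin m, ∑ x : E × Fin m → Bool, W j (fun y => f (rs s x y)) ≤
      (m ^ Fintype.card E * 2 ^ Fintype.card (E × Fin m)) *
        (4 * (3 / (lam + 1)) ^ j + 2 * η ^ 2) := by
  have hp2 : ∀ z, p z ^ 2 ≤ 2 := by
    intro z
    have h1 := abs_le.mp (hpf z)
    rcases hf z with h | h <;> rw [h] at h1 <;> nlinarith
  have hsum2 : ∑ S : Finset (E × Fin m), coef p S ^ 2 ≤ 2 := parseval_le p 2 hp2
  have hP : ∑ s : E → Fin m, ∑ x : E × Fin m → Bool, W j (fun y => p (rs s x y)) ≤
      (m ^ Fintype.card E * 2 ^ Fintype.card (E × Fin m)) * (2 * (3 / (lam + 1)) ^ j) := by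
    simp only [sum_W_rs]
    rw [← Finset.mul_sum, Finset.sum_comm]
    have h1 : ∀ S : Finset (E × Fin m), ∑ s : E → Fin m,
        (if (surv s S).card = j then coef p S ^ 2 else 0) ≤
        m ^ Fintype.card E * (3 / (lam + 1)) ^ j * coef p S ^ 2 := by
      intro S
      rw [← Finset.sum_filter, Finset.sum_const, nsmul_eq_mul]
      by_cases hS : S.card ≤ D
      · refine mul_le_mul_of_nonneg_right ?_ (by positivity)
        have h2 := count_surv' S j D lam hm hS hD
        have h3 : (0 : ℝ) < (lam + 1 : ℝ) ^ j := by positivity
        rw [div_pow, mul_div_assoc', le_div_iff₀ h3]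
        exact h2
      · rw [lowDeg_coef hp S (by omega)]; simp
    have h2 : ∑ S : Finset (E × Fin m), ∑ s : E → Fin m,
        (if (surv s S).card = j then coef p S ^ 2 else 0) ≤
        m ^ Fintype.card E * (3 / (lam + 1)) ^ j * 2 := by
      refine (Finset.sum_le_sum (fun S _ => h1 S)).trans ?_
      rw [← Finset.mul_sum]
      exact mul_le_mul_of_nonneg_left hsum2 (by positivity)
    refine (mul_le_mul_of_nonneg_left h2 (by positivity)).trans (le_of_eq ?_)
    ring
  have hE : ∀ s : E → Fin m, ∀ x : E × Fin m → Bool,
      W j ((fun y => f (rs s x y)) - fun y => p (rs s x y)) ≤ η ^ 2 := by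
    intro s x
    apply W_le
    intro y
    simp only [Pi.sub_apply]
    have h1 := hpf (rs s x y)
    calc (f (rs s x y) - p (rs s x y)) ^ 2 = |p (rs s x y) - f (rs s x y)| ^ 2 := by
          rw [sq_abs]; ring
      _ ≤ η ^ 2 := pow_le_pow_left₀ (abs_nonneg _) h1 2
  have hcard : ∑ _s : E → Fin m, ∑ _x : E × Fin m → Bool, (1 : ℝ) =
      m ^ Fintype.card E * 2 ^ Fintype.card (E × Fin m) := by
    simp
  calc ∑ s : E → Fin m, ∑ x : E × Fin m → Bool, W j (fun y => f (rs s x y))
      ≤ ∑ s : E → Fin m, ∑ x : E × Fin m → Bool,
          (2 * W j (fun y => p (rs s x y)) + 2 * η ^ 2 * 1) := by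
        refine Finset.sum_le_sum (fun s _ => Finset.sum_le_sum (fun x _ => ?_))
        have h1 := W_sub j (fun y => f (rs s x y)) (fun y => p (rs s x y))
        have h2 := hE s x
        linarith
    _ = 2 * (∑ s : E → Fin m, ∑ x : E × Fin m → Bool, W j (fun y => p (rs s x y))) +
          2 * η ^ 2 * (m ^ Fintype.card E * 2 ^ Fintype.card (E × Fin m)) := by
        rw [← hcard]
        simp only [Finset.sum_add_distrib, ← Finset.mul_sum]
    _ ≤ 2 * ((m ^ Fintype.card E * 2 ^ Fintype.card (E × Fin m)) * (2 * (3 / (lam + 1)) ^ j)) +
          2 * η ^ 2 * (m ^ Fintype.card E * 2 ^ Fintype.card (E × Fin m)) := by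
        gcongr
    _ = _ := by ring

section

variable {L : Type} [Fintype L] [DecidableEq L]

/-- the binary subcube of the free coordinates spanned by `u` and `v`, at `x` -/
def cube (f : (E × Fin m → L) → ℝ) (s : E → Fin m) (x u v : E × Fin m → L) (y : E → Bool) : ℝ :=
  f (fun w => if w.2 = s w.1 then (if y w.1 = true then v w else u w) else x w)

/-- the coefficient of a set for pairs of letters at one more coordinate -/
lemma coef_step (f : (E × Fin m → L) → ℝ) (s : E → Fin m) (x : E × Fin m → L) (T : Finset E)
    (e : E) (he : e ∉ T)
    (h0 : ∀ u v : E × Fin m → L, coef (cube f s x u v) (insert e T) = 0)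
    (u v : E × Fin m → L) (a b : L) :
    coef (cube f s x u v) T =
      coef (cube f s x (Function.update u (e, s e) a) (Function.update v (e, s e) b)) T := by
  classical
  -- replacing the second letter by the first
  have key : ∀ (u v : E × Fin m → L),
      coef (cube f s x u v) T =
        coef (cube f s x u (Function.update v (e, s e) (u (e, s e)))) T ∧
      coef (cube f s x u v) T =
        coef (cube f s x (Function.update u (e, s e) (v (e, s e))) v) T := by
    intro u v
    -- sums over the pairs `y`, `y` flipped at `e`
    have hflip : ∀ g : (E → Bool) → ℝ, ∑ y, g y = ∑ y, g (Function.update y e (!(y e))) := by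
      intro g
      refine (Fintype.sum_equiv (Function.Involutive.toPerm
        (fun y : E → Bool => Function.update y e (!(y e))) (by
          intro y
          funext i
          by_cases hi : i = e
          · subst hi; simp
          · simp [hi])) _ _ (fun y => rfl)).symm
    have hchiT : ∀ y : E → Bool, chi T (Function.update y e (!(y e))) = chi T y := by
      intro y
      rw [chi_eq, chi_eq]
      refine Finset.prod_congr rfl (fun i hi => ?_)
      have : i ≠ e := fun h => he (h ▸ hi)
      rw [Function.update_of_ne this]
    have hchiI : ∀ y : E → Bool, chi (insert e T) y = sg (y e) * chi T y := by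
      intro y
      rw [chi_eq, chi_eq, Finset.prod_insert he]
    -- the two functions with a constant letter
    have hu : ∀ y : E → Bool, y e = false →
        cube f s x u v y = cube f s x u (Function.update v (e, s e) (u (e, s e))) y := by
      intro y hy
      unfold cube
      congr 1
      funext w
      by_cases hw : w.2 = s w.1
      · by_cases hwe : w.1 = e
        · have : w = (e, s e) := by
            ext
            · exact hwe
            · rw [hw, hwe]
          subst this
          simp [hy]
        · have : w ≠ (e, s e) := fun h => hwe (by rw [h])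
          simp [hw, Function.update_of_ne this]
      · simp [hw]
    have hv : ∀ y : E → Bool, y e = true →
        cube f s x u v y = cube f s x (Function.update u (e, s e) (v (e, s e))) v y := by
      intro y hy
      unfold cube
      congr 1
      funext w
      by_cases hw : w.2 = s w.1
      · by_cases hwe : w.1 = e
        · have : w = (e, s e) := by
            ext
            · exact hwe
            · rw [hw, hwe]
          subst this
          simp [hy]
        · have : w ≠ (e, s e) := fun h => hwe (by rw [h])
          simp [hw, Function.update_of_ne this]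
      · simp [hw]
    have hcu : ∀ y : E → Bool,
        cube f s x u (Function.update v (e, s e) (u (e, s e))) (Function.update y e (!(y e))) =
        cube f s x u (Function.update v (e, s e) (u (e, s e))) y := by
      intro y
      unfold cube
      congr 1
      funext w
      by_cases hw : w.2 = s w.1
      · by_cases hwe : w.1 = e
        · have : w = (e, s e) := by
            ext
            · exact hwe
            · rw [hw, hwe]
          subst this
          simp
        · simp [hw, Function.update_of_ne hwe]
      · simp [hw]
    have hcv : ∀ y : E → Bool,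
        cube f s x (Function.update u (e, s e) (v (e, s e))) v (Function.update y e (!(y e))) =
        cube f s x (Function.update u (e, s e) (v (e, s e))) v y := by
      intro y
      unfold cube
      congr 1
      funext w
      by_cases hw : w.2 = s w.1
      · by_cases hwe : w.1 = e
        · have : w = (e, s e) := by
            ext
            · exact hwe
            · rw [hw, hwe]
          subst this
          simp
        · simp [hw, Function.update_of_ne hwe]
      · simp [hw]
    have h1 := h0 u v
    unfold coef at h1
    have h2 : (0 : ℝ) < 2 ^ Fintype.card E := by positivity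
    have h3 : ∑ y, cube f s x u v y * chi (insert e T) y = 0 := by
      rcases div_eq_zero_iff.1 h1 with h | h
      · exact h
      · exact absurd h h2.ne'
    constructor
    · unfold coef
      congr 1
      -- both sides: twice the sum over `y e = false`
      have h4 : ∑ y, cube f s x u v y * chi T y =
          ∑ y, cube f s x u v y * chi T y * (1 + sg (y e)) := by
        have h5 : ∀ y : E → Bool, cube f s x u v y * chi T y * (1 + sg (y e)) =
            cube f s x u v y * chi T y + cube f s x u v y * chi (insert e T) y := by
          intro y; rw [hchiI]; ring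
        rw [Finset.sum_congr rfl (fun y _ => h5 y), Finset.sum_add_distrib, h3, add_zero]
      have h6 : ∀ y : E → Bool, cube f s x u v y * chi T y * (1 + sg (y e)) =
          cube f s x u (Function.update v (e, s e) (u (e, s e))) y * chi T y * (1 + sg (y e)) := by
        intro y
        cases hy : y e
        · rw [hu y hy]
        · simp [sg]
      rw [h4, Finset.sum_congr rfl (fun y _ => h6 y)]
      have h7 : ∑ y, cube f s x u (Function.update v (e, s e) (u (e, s e))) y * chi T y * sg (y e)
          = 0 := by
        have h8 := hflip (fun y => cube f s x u (Function.update v (e, s e) (u (e, s e))) y *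
          chi T y * sg (y e))
        simp only [hcu, hchiT, Function.update_self] at h8
        have h9 : ∀ y : E → Bool, sg (!(y e)) = - sg (y e) := by
          intro y; cases y e <;> simp [sg]
        simp only [h9, mul_neg, Finset.sum_neg_distrib] at h8
        linarith
      have h10 : ∀ y : E → Bool,
          cube f s x u (Function.update v (e, s e) (u (e, s e))) y * chi T y * (1 + sg (y e)) =
          cube f s x u (Function.update v (e, s e) (u (e, s e))) y * chi T y +
          cube f s x u (Function.update v (e, s e) (u (e, s e))) y * chi T y * sg (y e) := by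
        intro y; ring
      rw [Finset.sum_congr rfl (fun y _ => h10 y), Finset.sum_add_distrib, h7, add_zero]
    · unfold coef
      congr 1
      have h4 : ∑ y, cube f s x u v y * chi T y =
          ∑ y, cube f s x u v y * chi T y * (1 - sg (y e)) := by
        have h5 : ∀ y : E → Bool, cube f s x u v y * chi T y * (1 - sg (y e)) =
            cube f s x u v y * chi T y - cube f s x u v y * chi (insert e T) y := by
          intro y; rw [hchiI]; ring
        rw [Finset.sum_congr rfl (fun y _ => h5 y), Finset.sum_sub_distrib, h3, sub_zero]
      have h6 : ∀ y : E → Bool, cube f s x u v y * chi T y * (1 - sg (y e)) =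
          cube f s x (Function.update u (e, s e) (v (e, s e))) v y * chi T y * (1 - sg (y e)) := by
        intro y
        cases hy : y e
        · simp [sg]
        · rw [hv y hy]
      rw [h4, Finset.sum_congr rfl (fun y _ => h6 y)]
      have h7 : ∑ y, cube f s x (Function.update u (e, s e) (v (e, s e))) v y * chi T y * sg (y e)
          = 0 := by
        have h8 := hflip (fun y => cube f s x (Function.update u (e, s e) (v (e, s e))) v y *
          chi T y * sg (y e))
        simp only [hcv, hchiT, Function.update_self] at h8
        have h9 : ∀ y : E → Bool, sg (!(y e)) = - sg (y e) := by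
          intro y; cases y e <;> simp [sg]
        simp only [h9, mul_neg, Finset.sum_neg_distrib] at h8
        linarith
      have h10 : ∀ y : E → Bool,
          cube f s x (Function.update u (e, s e) (v (e, s e))) v y * chi T y * (1 - sg (y e)) =
          cube f s x (Function.update u (e, s e) (v (e, s e))) v y * chi T y -
          cube f s x (Function.update u (e, s e) (v (e, s e))) v y * chi T y * sg (y e) := by
        intro y; ring
      rw [Finset.sum_congr rfl (fun y _ => h10 y), Finset.sum_sub_distrib, h7, sub_zero]
  -- (u, v) -> (u, v[u]) -> (u, v[b]) -> (u[b], v[b]) -> (u[a], v[b])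
  have s1 := (key u v).1
  have s2 := (key u (Function.update v (e, s e) b)).1
  have s3 := (key u (Function.update v (e, s e) b)).2
  have s4 := (key (Function.update u (e, s e) a) (Function.update v (e, s e) b)).2
  simp only [Function.update_idem, Function.update_self] at s2 s3 s4
  rw [s1, ← s2, s3, s4]

/-- the coefficient at a set of maximal size depends only on the letters at this set -/
lemma coef_const (f : (E × Fin m → L) → ℝ) (s : E → Fin m) (x : E × Fin m → L) (T : Finset E)
    (h0 : ∀ (e : E), e ∉ T → ∀ u v : E × Fin m → L, coef (cube f s x u v) (insert e T) = 0)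
    (D : Finset (E × Fin m)) : (∀ w ∈ D, ¬ (w.2 = s w.1 ∧ w.1 ∈ T)) →
    ∀ u v u' v' : E × Fin m → L, (∀ w, w ∉ D → u w = u' w ∧ v w = v' w) →
      coef (cube f s x u v) T = coef (cube f s x u' v') T := by
  classical
  induction D using Finset.induction_on with
  | empty =>
    intro _ u v u' v' h
    have h1 : u = u' := funext fun w => (h w (by simp)).1
    have h2 : v = v' := funext fun w => (h w (by simp)).2
    rw [h1, h2]
  | insert w D hw ih =>
    intro hD u v u' v' h
    have h1 : coef (cube f s x u v) T =
        coef (cube f s x (Function.update u w (u' w)) (Function.update v w (v' w))) T := by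
      by_cases hws : w.2 = s w.1
      · have hwT : w.1 ∉ T := fun h => hD w (mem_insert_self _ _) ⟨hws, h⟩
        have hwe : w = (w.1, s w.1) := by
          ext
          · rfl
          · rw [hws]
        rw [hwe]
        exact coef_step f s x T w.1 hwT (h0 w.1 hwT) u v _ _
      · have h2 : cube f s x u v =
            cube f s x (Function.update u w (u' w)) (Function.update v w (v' w)) := by
          funext y
          unfold cube
          congr 1
          funext w'
          by_cases hw' : w'.2 = s w'.1
          · have : w' ≠ w := by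
              rintro rfl
              exact hws hw'
            simp [hw', Function.update_of_ne this]
          · simp [hw']
        rw [← h2]
    rw [h1]
    refine ih (fun w' hw' => hD w' (mem_insert_of_mem hw')) _ _ _ _ (fun w' hw' => ?_)
    by_cases hww : w' = w
    · subst hww
      simp
    · rw [Function.update_of_ne hww, Function.update_of_ne hww]
      exact h w' (by simp [hww, hw'])

/-- all binary subcubes of the free coordinates at `x` have degree at most `t` -/
def Good (f : (E × Fin m → L) → ℝ) (t : ℕ) (s : E → Fin m) (x : E × Fin m → L) : Prop :=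
  ∀ u v : E × Fin m → L, cube f s x u v ∈ LowDeg E t

/-- many binary subcubes have weight at some level if not all of them have low degree -/
lemma bad_sum (f : (E × Fin m → L) → ℝ) (hf : ∀ x, f x = 0 ∨ f x = 1) (t : ℕ) (s : E → Fin m)
    (x : E × Fin m → L) (hbad : ¬ Good f t s x) :
    ((Fintype.card L : ℝ) ^ Fintype.card (E × Fin m)) ^ 2 ≤
      ∑ u : E × Fin m → L, ∑ v : E × Fin m → L, ∑ j ∈ Ioc t (Fintype.card E),
        (4 * (Fintype.card L : ℝ) ^ 2) ^ j * W j (cube f s x u v) := by
  classical
  unfold Good at hbad
  push Not at hbad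
  obtain ⟨u0, v0, huv⟩ := hbad
  have h1 : ∃ S : Finset E, t < S.card ∧ coef (cube f s x u0 v0) S ≠ 0 := by
    by_contra h
    push Not at h
    exact huv (coef_lowDeg h)
  obtain ⟨S0, hS0, hc0⟩ := h1
  -- a set of maximal size
  obtain ⟨T, hT, hmax⟩ := Finset.exists_max_image
    (univ.filter (fun S : Finset E => ∃ u v : E × Fin m → L, coef (cube f s x u v) S ≠ 0))
    Finset.card ⟨S0, by simp only [mem_filter, mem_univ, true_and]; exact ⟨u0, v0, hc0⟩⟩
  simp only [mem_filter, mem_univ, true_and] at hT hmax
  obtain ⟨u1, v1, hT1⟩ := hT
  have hTt : t < T.card := hS0.trans_le (hmax S0 ⟨u0, v0, hc0⟩)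
  have htop : ∀ (u v : E × Fin m → L) (S : Finset E), T.card < S.card →
      coef (cube f s x u v) S = 0 := by
    intro u v S hS
    by_contra h
    exact absurd (hmax S ⟨u, v, h⟩) (by omega)
  have h0 : ∀ (e : E), e ∉ T → ∀ u v : E × Fin m → L, coef (cube f s x u v) (insert e T) = 0 := by
    intro e he u v
    apply htop
    rw [card_insert_of_notMem he]
    omega
  -- the coordinates of `T`
  let TT : Finset (E × Fin m) := univ.filter (fun w => w.2 = s w.1 ∧ w.1 ∈ T)
  have hTT : TT.card = T.card := by
    have : TT = T.map ⟨fun e => (e, s e), fun a b h => (Prod.ext_iff.1 h).1⟩ := by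
      ext ⟨a, b⟩
      simp only [TT, mem_filter, mem_univ, true_and, mem_map, Function.Embedding.coeFn_mk,
        Prod.mk.injEq]
      constructor
      · rintro ⟨h1, h2⟩
        exact ⟨a, h2, rfl, h1.symm⟩
      · rintro ⟨a', h1, rfl, rfl⟩
        exact ⟨rfl, h1⟩
    rw [this, card_map]
  have hone : ∀ u v : E × Fin m → L, (∀ w ∈ TT, u w = u1 w ∧ v w = v1 w) →
      1 ≤ 4 ^ T.card * W T.card (cube f s x u v) := by
    intro u v h
    have h2 : coef (cube f s x u v) T = coef (cube f s x u1 v1) T := by
      refine coef_const f s x T h0 (univ \ TT) ?_ u v u1 v1 ?_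
      · intro w hw h3
        simp only [mem_sdiff, mem_univ, true_and, TT, mem_filter] at hw
        exact hw h3
      · intro w hw
        simp only [mem_sdiff, mem_univ, true_and, not_not] at hw
        exact h w hw
    have h3 := granular_sq (cube f s x u v) (fun y => hf _) T (htop u v) (by rw [h2]; exact hT1)
    have h4 : coef (cube f s x u v) T ^ 2 ≤ W T.card (cube f s x u v) := by
      rw [W]
      have := Finset.single_le_sum (f := fun A : Finset E => if A.card = T.card then
        coef (cube f s x u v) A ^ 2 else 0) (s := univ)
        (fun A _ => by split_ifs <;> positivity) (mem_univ T)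
      simpa using this
    exact h3.trans (mul_le_mul_of_nonneg_left h4 (by positivity))
  -- counting
  have hcnt : ∀ u1 : E × Fin m → L,
      ((univ.filter (fun u : E × Fin m → L => ∀ w ∈ TT, u w = u1 w)).card : ℝ) *
        (Fintype.card L : ℝ) ^ T.card = (Fintype.card L : ℝ) ^ Fintype.card (E × Fin m) := by
    intro u1
    have h2 : (univ.filter (fun u : E × Fin m → L => ∀ w ∈ TT, u w = u1 w)) =
        Fintype.piFinset (fun w => if w ∈ TT then {u1 w} else (univ : Finset L)) := by
      ext u
      simp only [mem_filter, mem_univ, true_and, Fintype.mem_piFinset]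
      constructor
      · intro h w
        by_cases hw : w ∈ TT
        · simp [hw, h w hw]
        · simp [hw]
      · intro h w hw
        have := h w
        simpa [hw] using this
    rw [h2, Fintype.card_piFinset]
    have h3 : ∀ w : E × Fin m, (if w ∈ TT then {u1 w} else (univ : Finset L)).card =
        if w ∈ TT then 1 else Fintype.card L := by
      intro w
      split_ifs <;> simp
    rw [Finset.prod_congr rfl (fun w _ => h3 w), Finset.prod_ite, Finset.prod_const_one, one_mul,
      Finset.prod_const]
    push_cast
    rw [← pow_add, ← hTT]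
    congr 1
    have h4 : (univ.filter (fun w => w ∉ TT)) = univ \ TT := by ext w; simp
    rw [h4, Finset.card_sdiff_of_subset (subset_univ _), Finset.card_univ]
    have : TT.card ≤ Fintype.card (E × Fin m) := Finset.card_le_univ _
    omega
  have hLpos : 0 < Fintype.card L ∨ Fintype.card L = 0 := by omega
  have hnn : ∀ (u v : E × Fin m → L) (j : ℕ),
      0 ≤ (4 * (Fintype.card L : ℝ) ^ 2) ^ j * W j (cube f s x u v) := fun u v j =>
    mul_nonneg (by positivity) (W_nonneg j _)
  calc ((Fintype.card L : ℝ) ^ Fintype.card (E × Fin m)) ^ 2
      = ∑ _u ∈ univ.filter (fun u : E × Fin m → L => ∀ w ∈ TT, u w = u1 w),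
          ∑ _v ∈ univ.filter (fun v : E × Fin m → L => ∀ w ∈ TT, v w = v1 w),
            ((Fintype.card L : ℝ) ^ 2) ^ T.card := by
        rw [Finset.sum_const, Finset.sum_const, nsmul_eq_mul, nsmul_eq_mul]
        rw [sq]
        nth_rewrite 1 [← hcnt u1]
        rw [← hcnt v1]
        ring
    _ ≤ ∑ u ∈ univ.filter (fun u : E × Fin m → L => ∀ w ∈ TT, u w = u1 w),
          ∑ v ∈ univ.filter (fun v : E × Fin m → L => ∀ w ∈ TT, v w = v1 w),
            ∑ j ∈ Ioc t (Fintype.card E),
              (4 * (Fintype.card L : ℝ) ^ 2) ^ j * W j (cube f s x u v) := by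
        refine Finset.sum_le_sum (fun u hu => Finset.sum_le_sum (fun v hv => ?_))
        simp only [mem_filter, mem_univ, true_and] at hu hv
        have h5 := hone u v (fun w hw => ⟨hu w hw, hv w hw⟩)
        have h6 := Finset.single_le_sum (f := fun j =>
          (4 * (Fintype.card L : ℝ) ^ 2) ^ j * W j (cube f s x u v))
          (s := Ioc t (Fintype.card E)) (fun j _ => hnn u v j)
          (Finset.mem_Ioc.2 ⟨hTt, Finset.card_le_univ T⟩)
        refine le_trans ?_ h6
        rw [mul_pow]
        calc ((Fintype.card L : ℝ) ^ 2) ^ T.card = ((Fintype.card L : ℝ) ^ 2) ^ T.card * 1 :=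
              (mul_one _).symm
          _ ≤ ((Fintype.card L : ℝ) ^ 2) ^ T.card * (4 ^ T.card * W T.card (cube f s x u v)) :=
              mul_le_mul_of_nonneg_left h5 (by positivity)
          _ = _ := by ring
    _ ≤ ∑ u ∈ univ.filter (fun u : E × Fin m → L => ∀ w ∈ TT, u w = u1 w),
          ∑ v : E × Fin m → L, ∑ j ∈ Ioc t (Fintype.card E),
              (4 * (Fintype.card L : ℝ) ^ 2) ^ j * W j (cube f s x u v) := by
        refine Finset.sum_le_sum (fun u _ => ?_)
        exact Finset.sum_le_sum_of_subset_of_nonneg (Finset.filter_subset _ _)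
          (fun v _ _ => Finset.sum_nonneg (fun j _ => hnn u v j))
    _ ≤ _ := Finset.sum_le_sum_of_subset_of_nonneg (Finset.filter_subset _ _)
          (fun u _ _ => Finset.sum_nonneg (fun v _ => Finset.sum_nonneg (fun j _ => hnn u v j)))

end

end Pool.Agent.Y607.LP
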