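import Pool.Agent.Y607.LP.Gen

/-!
# Sets decided by small formulas without patterns given by arbitrary maps
-/

set_option autoImplicit false

namespace Pool.Agent.Y607.LP

open Pool.Agent.H564R2.QF Pool.Agent.Helper600R2.Sharp Finset

section

variable {E : Type} [Fintype E] [DecidableEq E] {m : ℕ}
variable {L : Type} [Fintype L] [DecidableEq L]

omit [Fintype E] [DecidableEq E] [Fintype L] [DecidableEq L] in
lemma cube_congr (f : (E × Fin m → L) → ℝ) (s : E → Fin m) (x u v x' u' v' : E × Fin m → L)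
    (h1 : ∀ w : E × Fin m, ¬ w.2 = s w.1 → x w = x' w)
    (h2 : ∀ w : E × Fin m, w.2 = s w.1 → u w = u' w ∧ v w = v' w) :
    cube f s x u v = cube f s x' u' v' := by
  funext y
  unfold cube
  congr 1
  funext w
  by_cases hw : w.2 = s w.1
  · simp [hw, (h2 w hw).1, (h2 w hw).2]
  · simp [hw, h1 w hw]

/-- exchange of two assignments at a set of coordinates -/
def exch (P : E × Fin m → Prop) [DecidablePred P] :
    ((E × Fin m → L) × (E × Fin m → L)) ≃ ((E × Fin m → L) × (E × Fin m → L)) where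
  toFun p := (fun w => if P w then p.2 w else p.1 w, fun w => if P w then p.1 w else p.2 w)
  invFun p := (fun w => if P w then p.2 w else p.1 w, fun w => if P w then p.1 w else p.2 w)
  left_inv p := by
    ext w <;> by_cases h : P w <;> simp [h]
  right_inv p := by
    ext w <;> by_cases h : P w <;> simp [h]

/-- averaging over all binary subcubes -/
lemma sum_cube (G : ((E → Bool) → ℝ) → ℝ) (f : (E × Fin m → L) → ℝ) (s : E → Fin m) :
    ∑ x : E × Fin m → L, ∑ u : E × Fin m → L, ∑ v : E × Fin m → L, G (cube f s x u v) =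
      (Fintype.card L : ℝ) ^ Fintype.card (E × Fin m) *
        ∑ X : E × Fin m → L, ∑ Y : E × Fin m → L, G (cube f s X X Y) := by
  classical
  have h1 : ∑ x : E × Fin m → L, ∑ u : E × Fin m → L, ∑ v : E × Fin m → L,
      G (cube f s x u v) =
      ∑ p : (E × Fin m → L) × (E × Fin m → L), ∑ v : E × Fin m → L, G (cube f s p.1 p.2 v) := by
    rw [Fintype.sum_prod_type]
  have h2 : ∑ p : (E × Fin m → L) × (E × Fin m → L), ∑ v : E × Fin m → L,
      G (cube f s p.1 p.2 v) =
      ∑ p : (E × Fin m → L) × (E × Fin m → L), ∑ v : E × Fin m → L, G (cube f s p.1 p.1 v) := by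
    refine Fintype.sum_equiv (exch (fun w => w.2 = s w.1)) _ _ (fun p => ?_)
    refine Finset.sum_congr rfl (fun v _ => ?_)
    congr 1
    apply cube_congr
    · intro w hw
      simp [exch, hw]
    · intro w hw
      simp [exch, hw]
  rw [h1, h2, Fintype.sum_prod_type]
  simp only
  rw [Finset.mul_sum]
  refine Finset.sum_congr rfl (fun X _ => ?_)
  rw [Finset.sum_const, Finset.card_univ, Fintype.card_fun, nsmul_eq_mul]
  push_cast
  rfl

/-- the function on bits which selects between two assignments -/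
def sel (f : (E × Fin m → L) → ℝ) (U V : E × Fin m → L) : (E × Fin m → Bool) → ℝ :=
  fun b => f (fun w => if b w = true then V w else U w)

lemma sum_sel (G : ((E → Bool) → ℝ) → ℝ) (f : (E × Fin m → L) → ℝ) (s : E → Fin m)
    (b : E × Fin m → Bool) :
    ∑ U : E × Fin m → L, ∑ V : E × Fin m → L, G (fun y => sel f U V (rs s b y)) =
      ∑ X : E × Fin m → L, ∑ Y : E × Fin m → L, G (cube f s X X Y) := by
  classical
  rw [← Fintype.sum_prod_type' (f := fun U V => G (fun y => sel f U V (rs s b y))),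
    ← Fintype.sum_prod_type' (f := fun X Y => G (cube f s X X Y))]
  refine Fintype.sum_equiv (exch (fun w => ¬ w.2 = s w.1 ∧ b w = true)) _ _ (fun p => ?_)
  congr 1
  funext y
  unfold sel cube
  congr 1
  funext w
  by_cases hw : w.2 = s w.1
  · simp [exch, rs, hw]
  · by_cases hb : b w = true
    · simp [exch, rs, hw, hb]
    · simp [exch, rs, hw, hb]

open Classical in
/-- for most selections and most points all binary subcubes have low degree -/
theorem count_bad (f : (E × Fin m → L) → ℝ) (hf : ∀ x, f x = 0 ∨ f x = 1) (t : ℕ) (ε : ℕ → ℝ)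
    (hL : 0 < Fintype.card L)
    (hw : ∀ j, t < j → ∀ U V : E × Fin m → L,
      ∑ s : E → Fin m, ∑ b : E × Fin m → Bool, W j (fun y => sel f U V (rs s b y)) ≤
        (m ^ Fintype.card E * 2 ^ Fintype.card (E × Fin m)) * ε j) :
    ∑ s : E → Fin m, ∑ x : E × Fin m → L, (if Good f t s x then (0 : ℝ) else 1) ≤
      (m ^ Fintype.card E * (Fintype.card L : ℝ) ^ Fintype.card (E × Fin m)) *
        ∑ j ∈ Ioc t (Fintype.card E), (4 * (Fintype.card L : ℝ) ^ 2) ^ j * ε j := by
  set Q : ℝ := (Fintype.card L : ℝ) ^ Fintype.card (E × Fin m) with hQ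
  have hQpos : 0 < Q := by
    have : (0 : ℝ) < Fintype.card L := by exact_mod_cast hL
    positivity
  -- the average of the weights
  have h1 : ∀ j, t < j → ∑ s : E → Fin m, ∑ X : E × Fin m → L, ∑ Y : E × Fin m → L,
      W j (cube f s X X Y) ≤ Q ^ 2 * (m ^ Fintype.card E * ε j) := by
    intro j hj
    have h2 : ∑ U : E × Fin m → L, ∑ V : E × Fin m → L, ∑ s : E → Fin m,
        ∑ b : E × Fin m → Bool, W j (fun y => sel f U V (rs s b y)) ≤
        Q ^ 2 * ((m ^ Fintype.card E * 2 ^ Fintype.card (E × Fin m)) * ε j) := by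
      refine (Finset.sum_le_sum (fun U _ => Finset.sum_le_sum (fun V _ => hw j hj U V))).trans
        (le_of_eq ?_)
      rw [Finset.sum_const, Finset.sum_const, Finset.card_univ, Fintype.card_fun, nsmul_eq_mul,
        nsmul_eq_mul]
      push_cast
      rw [hQ]
      ring
    have h3 : ∑ U : E × Fin m → L, ∑ V : E × Fin m → L, ∑ s : E → Fin m,
        ∑ b : E × Fin m → Bool, W j (fun y => sel f U V (rs s b y)) =
        2 ^ Fintype.card (E × Fin m) * ∑ s : E → Fin m, ∑ X : E × Fin m → L,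
          ∑ Y : E × Fin m → L, W j (cube f s X X Y) := by
      have h4 : ∀ U : E × Fin m → L, ∑ V : E × Fin m → L, ∑ s : E → Fin m,
          ∑ b : E × Fin m → Bool, W j (fun y => sel f U V (rs s b y)) =
          ∑ s : E → Fin m, ∑ b : E × Fin m → Bool, ∑ V : E × Fin m → L,
            W j (fun y => sel f U V (rs s b y)) := by
        intro U
        rw [Finset.sum_comm]
        refine Finset.sum_congr rfl (fun s _ => Finset.sum_comm)
      rw [Finset.sum_congr rfl (fun U _ => h4 U), Finset.sum_comm, Finset.mul_sum]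
      refine Finset.sum_congr rfl (fun s _ => ?_)
      rw [Finset.sum_comm]
      rw [Finset.sum_congr rfl (fun b _ => sum_sel (W j) f s b), Finset.sum_const,
        Finset.card_univ, nsmul_eq_mul, Fintype.card_fun, Fintype.card_bool]
      push_cast
      rfl
    rw [h3] at h2
    have h5 : (0 : ℝ) < 2 ^ Fintype.card (E × Fin m) := by positivity
    refine le_of_mul_le_mul_left (h2.trans (le_of_eq ?_)) h5
    ring
  -- every bad point contributes
  have h6 : ∀ (s : E → Fin m) (x : E × Fin m → L),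
      Q ^ 2 * (if Good f t s x then (0 : ℝ) else 1) ≤
      ∑ u : E × Fin m → L, ∑ v : E × Fin m → L, ∑ j ∈ Ioc t (Fintype.card E),
        (4 * (Fintype.card L : ℝ) ^ 2) ^ j * W j (cube f s x u v) := by
    intro s x
    split_ifs with h
    · rw [mul_zero]
      refine Finset.sum_nonneg (fun u _ => Finset.sum_nonneg (fun v _ =>
        Finset.sum_nonneg (fun j _ => mul_nonneg (by positivity) (W_nonneg j _))))
    · rw [mul_one]
      exact bad_sum f hf t s x h
  have h7 : Q ^ 2 * ∑ s : E → Fin m, ∑ x : E × Fin m → L,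
      (if Good f t s x then (0 : ℝ) else 1) ≤
      ∑ j ∈ Ioc t (Fintype.card E), (4 * (Fintype.card L : ℝ) ^ 2) ^ j *
        ∑ s : E → Fin m, ∑ x : E × Fin m → L, ∑ u : E × Fin m → L, ∑ v : E × Fin m → L,
          W j (cube f s x u v) := by
    rw [Finset.mul_sum]
    calc ∑ s : E → Fin m, Q ^ 2 * ∑ x : E × Fin m → L, (if Good f t s x then (0 : ℝ) else 1)
        ≤ ∑ s : E → Fin m, ∑ x : E × Fin m → L, ∑ u : E × Fin m → L, ∑ v : E × Fin m → L,
            ∑ j ∈ Ioc t (Fintype.card E),
              (4 * (Fintype.card L : ℝ) ^ 2) ^ j * W j (cube f s x u v) := by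
          refine Finset.sum_le_sum (fun s _ => ?_)
          rw [Finset.mul_sum]
          exact Finset.sum_le_sum (fun x _ => h6 s x)
      _ = _ := by
          have e1 : ∀ (s : E → Fin m) (x u : E × Fin m → L), ∑ v : E × Fin m → L,
              ∑ j ∈ Ioc t (Fintype.card E),
                (4 * (Fintype.card L : ℝ) ^ 2) ^ j * W j (cube f s x u v) =
              ∑ j ∈ Ioc t (Fintype.card E), ∑ v : E × Fin m → L,
                (4 * (Fintype.card L : ℝ) ^ 2) ^ j * W j (cube f s x u v) :=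
            fun s x u => Finset.sum_comm
          have e2 : ∀ (s : E → Fin m) (x : E × Fin m → L), ∑ u : E × Fin m → L,
              ∑ v : E × Fin m → L, ∑ j ∈ Ioc t (Fintype.card E),
                (4 * (Fintype.card L : ℝ) ^ 2) ^ j * W j (cube f s x u v) =
              ∑ j ∈ Ioc t (Fintype.card E), ∑ u : E × Fin m → L, ∑ v : E × Fin m → L,
                (4 * (Fintype.card L : ℝ) ^ 2) ^ j * W j (cube f s x u v) := by
            intro s x
            rw [Finset.sum_congr rfl (fun u _ => e1 s x u)]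
            exact Finset.sum_comm
          have e3 : ∀ (s : E → Fin m), ∑ x : E × Fin m → L, ∑ u : E × Fin m → L,
              ∑ v : E × Fin m → L, ∑ j ∈ Ioc t (Fintype.card E),
                (4 * (Fintype.card L : ℝ) ^ 2) ^ j * W j (cube f s x u v) =
              ∑ j ∈ Ioc t (Fintype.card E), ∑ x : E × Fin m → L, ∑ u : E × Fin m → L,
                ∑ v : E × Fin m → L,
                (4 * (Fintype.card L : ℝ) ^ 2) ^ j * W j (cube f s x u v) := by
            intro s
            rw [Finset.sum_congr rfl (fun x _ => e2 s x)]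
            exact Finset.sum_comm
          rw [Finset.sum_congr rfl (fun s _ => e3 s), Finset.sum_comm]
          refine Finset.sum_congr rfl (fun j _ => ?_)
          simp only [Finset.mul_sum]
  have h8 : ∀ j ∈ Ioc t (Fintype.card E), ∑ s : E → Fin m, ∑ x : E × Fin m → L,
      ∑ u : E × Fin m → L, ∑ v : E × Fin m → L, W j (cube f s x u v) ≤
      Q * (Q ^ 2 * (m ^ Fintype.card E * ε j)) := by
    intro j hj
    rw [Finset.mem_Ioc] at hj
    rw [Finset.sum_congr rfl (fun s _ => sum_cube (W j) f s), ← Finset.mul_sum]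
    exact mul_le_mul_of_nonneg_left (h1 j hj.1) hQpos.le
  have h9 := h7.trans (Finset.sum_le_sum (fun j hj =>
    mul_le_mul_of_nonneg_left (h8 j hj) (by positivity)))
  have h10 : ∑ j ∈ Ioc t (Fintype.card E), (4 * (Fintype.card L : ℝ) ^ 2) ^ j *
      (Q * (Q ^ 2 * (m ^ Fintype.card E * ε j))) =
      Q ^ 2 * ((m ^ Fintype.card E * Q) *
        ∑ j ∈ Ioc t (Fintype.card E), (4 * (Fintype.card L : ℝ) ^ 2) ^ j * ε j) := by
    rw [Finset.mul_sum, Finset.mul_sum]
    refine Finset.sum_congr rfl (fun j _ => ?_)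
    ring
  rw [h10] at h9
  exact le_of_mul_le_mul_left h9 (by positivity)

/-- the assignment `x` with the maps `τ` applied at the coordinates in `W` -/
def put {ι : Type} [DecidableEq ι] (τ : ι → L → L) (W : Finset ι) (x : ι → L) : ι → L :=
  fun v => if v ∈ W then τ v (x v) else x v

omit [Fintype L] [DecidableEq L] in
/-- the polynomial method -/
theorem poly_good {κ : Type} [Fintype κ] (τ : κ → E × Fin m → L → L)
    (f : (E × Fin m → L) → ℝ) (hf : ∀ x, f x = 0 ∨ f x = 1) (t : ℕ)
    (hcard : Fintype.card κ * t < Fintype.card E)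
    (hfree : ∀ (x : E × Fin m → L) (W : Finset (E × Fin m)),
      (∀ i, f (put (τ i) W x) = 1) → W = ∅)
    (s : E → Fin m) (x : E × Fin m → L) (hx : f x = 1) : ¬ Good f t s x := by
  classical
  intro hgood
  have hcon : ∀ i : κ, cube f s x x (fun w => τ i w (x w)) ∈ LowDeg E t := fun i =>
    hgood x _
  have h1 : ∏ i : κ, cube f s x x (fun w => τ i w (x w)) ∈
      LowDeg E (∑ _i : κ, t) := LowDeg.prod univ (fun _ => t) _ (fun i _ => hcon i)
  have h2 : ∑ _i : κ, t = Fintype.card κ * t := by simp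
  rw [h2] at h1
  have h3 := lowDeg_coef h1 univ (by rw [Finset.card_univ]; exact hcard)
  have h4 : ∀ y : E → Bool, (∏ i : κ, cube f s x x (fun w => τ i w (x w))) y =
      if y = (fun _ => false) then 1 else 0 := by
    intro y
    rw [Finset.prod_apply]
    split_ifs with hy
    · subst hy
      refine Finset.prod_eq_one (fun i _ => ?_)
      have : cube f s x x (fun w => τ i w (x w)) (fun _ => false) = f x := by
        unfold cube
        congr 1
        funext v
        simp
      rw [this, hx]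
    · obtain ⟨e, he⟩ := Function.ne_iff.1 hy
      have he' : y e = true := by simpa using he
      have h5 : ¬ ∀ i, f (put (τ i) (univ.filter (fun v : E × Fin m =>
          v.2 = s v.1 ∧ y v.1 = true)) x) = 1 := by
        intro hall
        have := hfree x _ hall
        have h6 : (e, s e) ∈ univ.filter (fun v : E × Fin m => v.2 = s v.1 ∧ y v.1 = true) := by
          simp [he']
        rw [this] at h6
        simp at h6
      push Not at h5
      obtain ⟨i, hi⟩ := h5
      refine Finset.prod_eq_zero (mem_univ i) ?_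
      have h7 : cube f s x x (fun w => τ i w (x w)) y =
          f (put (τ i) (univ.filter (fun v : E × Fin m => v.2 = s v.1 ∧ y v.1 = true)) x) := by
        unfold cube put
        congr 1
        funext w
        by_cases hw : w.2 = s w.1
        · simp [hw]
        · simp [hw]
      rw [h7]
      exact (hf _).resolve_right hi
  have h5 : coef (∏ i : κ, cube f s x x (fun w => τ i w (x w))) univ =
      chi univ (fun _ : E => false) / 2 ^ Fintype.card E := by
    rw [coef]
    congr 1
    simp only [h4]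
    simp
  rw [h5] at h3
  have h6 : chi (univ : Finset E) (fun _ : E => false) = 1 := by simp [chi]
  rw [h6] at h3
  have h7 : (0 : ℝ) < 1 / 2 ^ Fintype.card E := by positivity
  linarith

end

/-- the weights of the restrictions of a small formula -/
lemma formula_weight {E : Type} [Fintype E] [DecidableEq E] {m : ℕ} (q : ℕ) (hq : 1 ≤ q)
    (φ : Fml (E × Fin m)) (j T : ℕ) (hj : 1 ≤ j) (hT : 1 ≤ T) (hm : 613440 * q ^ 3 * T ≤ m)
    (hs : φ.size ≤ j * T ^ 2) :
    ∑ s : E → Fin m, ∑ b : E × Fin m → Bool,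
      W j (fun y => (fun z => if φ.eval z = true then (1 : ℝ) else 0) (rs s b y)) ≤
      (m ^ Fintype.card E * 2 ^ Fintype.card (E × Fin m)) *
        (4 * (3 / (48 * (q : ℝ) ^ 2)) ^ j + 2 * (((1 / 4 : ℝ) ^ (q * j)) ^ 2)) := by
  obtain ⟨P, hP, hPf⟩ := formula_approx φ (q * j) T (Nat.mul_pos hq hj) hT
    (hs.trans (Nat.mul_le_mul_right _ (Nat.le_mul_of_pos_left _ hq)))
  have hm1 : 1 ≤ m := by
    refine le_trans ?_ hm
    exact Nat.mul_pos (Nat.mul_pos (by norm_num) (Nat.pow_pos hq)) hT
  have h1 := total_weight' (fun z => if φ.eval z = true then (1 : ℝ) else 0) P j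
    (12780 * (q * j) * T) (48 * q ^ 2 - 1) ((1 / 4) ^ (q * j)) hm1 (by
      intro z; split_ifs <;> simp) hP (by positivity) (by
      have h2 : 1 ≤ q * j := Nat.mul_pos hq hj
      calc ((1 : ℝ) / 4) ^ (q * j) ≤ (1 / 4) ^ 1 :=
            pow_le_pow_of_le_one (by norm_num) (by norm_num) h2
        _ = 1 / 4 := pow_one _) hPf (by
      calc (48 * q ^ 2 - 1) * (12780 * (q * j) * T) ≤ (48 * q ^ 2) * (12780 * (q * j) * T) :=
            Nat.mul_le_mul_right _ (Nat.sub_le _ _)
        _ = (613440 * q ^ 3 * T) * j := by ring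
        _ ≤ m * j := Nat.mul_le_mul_right _ hm)
  have h2 : (((48 * q ^ 2 - 1 : ℕ) : ℝ) + 1) = 48 * (q : ℝ) ^ 2 := by
    have : 1 ≤ 48 * q ^ 2 := by
      have : 0 < q ^ 2 := Nat.pow_pos hq
      omega
    push_cast [Nat.cast_sub this]
    ring
  rw [h2] at h1
  exact h1

/-- the numerical part of the weights -/
lemma weight_num (q j : ℕ) (hq : 1 ≤ q) :
    (4 * (q : ℝ) ^ 2) ^ j * (4 * (3 / (48 * (q : ℝ) ^ 2)) ^ j +
      2 * (((1 / 4 : ℝ) ^ (q * j)) ^ 2)) ≤ 6 * (1 / 4) ^ j := by
  have hqr : (1 : ℝ) ≤ q := by exact_mod_cast hq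
  have h1 : (4 * (q : ℝ) ^ 2) ^ j * (4 * (3 / (48 * (q : ℝ) ^ 2)) ^ j) = 4 * (1 / 4) ^ j := by
    have : (4 * (q : ℝ) ^ 2) ^ j * (4 * (3 / (48 * (q : ℝ) ^ 2)) ^ j) =
        4 * ((4 * (q : ℝ) ^ 2) * (3 / (48 * (q : ℝ) ^ 2))) ^ j := by rw [mul_pow (4 * (q : ℝ) ^ 2) _]; ring
    rw [this]
    congr 2
    field_simp
    norm_num
  have h2 : (4 * (q : ℝ) ^ 2) ^ j * (2 * (((1 / 4 : ℝ) ^ (q * j)) ^ 2)) ≤ 2 * (1 / 4) ^ j := by
    have h3 : (4 * (q : ℝ) ^ 2) ^ j * (2 * (((1 / 4 : ℝ) ^ (q * j)) ^ 2)) =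
        2 * ((4 * (q : ℝ) ^ 2) * ((1 / 4 : ℝ) ^ q) ^ 2) ^ j := by
      rw [mul_pow (4 * (q : ℝ) ^ 2) _, ← pow_mul, ← pow_mul, ← pow_mul]
      have : q * j * 2 = q * 2 * j := by ring
      rw [this]
      ring
    rw [h3]
    apply mul_le_mul_of_nonneg_left _ (by norm_num)
    apply pow_le_pow_left₀ (by positivity)
    -- q^2 * 16^(-q) * 4 ≤ 1/4, i.e. 16 q^2 ≤ 16^q, i.e. 4 q ≤ 4^q
    have h4 : 4 * q ≤ 4 ^ q := by
      clear h1 h3 hqr
      induction q, hq using Nat.le_induction with
      | base => norm_num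
      | succ n hn ih =>
        rw [pow_succ]
        have : 1 ≤ n := hn
        nlinarith
    have h5 : (4 : ℝ) * q ≤ 4 ^ q := by exact_mod_cast h4
    have h6 : ((1 : ℝ) / 4) ^ q * 4 ^ q = 1 := by rw [← mul_pow]; norm_num
    have h7 : (4 * (q : ℝ)) * (1 / 4) ^ q ≤ 1 := by
      calc (4 * (q : ℝ)) * (1 / 4) ^ q ≤ 4 ^ q * (1 / 4) ^ q :=
            mul_le_mul_of_nonneg_right h5 (by positivity)
        _ = 1 := by rw [mul_comm]; exact h6
    have h8 : ((4 * (q : ℝ)) * (1 / 4) ^ q) ^ 2 ≤ 1 := pow_le_one₀ (by positivity) h7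
    calc 4 * (q : ℝ) ^ 2 * ((1 / 4) ^ q) ^ 2 = ((4 * (q : ℝ)) * (1 / 4) ^ q) ^ 2 / 4 := by ring
      _ ≤ 1 / 4 := by linarith
  rw [mul_add, h1]
  linarith

lemma geom6 (t n : ℕ) : ∑ j ∈ Finset.Ioc t n, (6 * (1 / 4 : ℝ) ^ j) ≤ 2 * (1 / 4) ^ t := by
  have h := geom t n
  have h1 : ∑ j ∈ Finset.Ioc t n, (6 * (1 / 4 : ℝ) ^ j) =
      2 * ∑ j ∈ Finset.Ioc t n, (3 * (1 / 4 : ℝ) ^ j) := by
    rw [Finset.mul_sum]
    refine Finset.sum_congr rfl (fun j _ => ?_)
    ring
  rw [h1]
  linarith

end Pool.Agent.Y607.LP
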