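import Pool.Agent.Y607.LP.Gen2

/-!
# Sets decided by small formulas without patterns given by arbitrary maps: the theorem
-/

set_option autoImplicit false

namespace Pool.Agent.Y607.LP

open Pool.Agent.H564R2.QF Pool.Agent.Helper600R2.Sharp Finset

section

variable {L : Type} [Fintype L] [DecidableEq L] {ℓ m r n : ℕ}

open Classical in
/-- a function decided by a small formula on the blocks has few bad points -/
lemma few_bad_pts (e : Fin n ≃ (Fin ℓ × Fin m) ⊕ Fin r) (φ : Fml (Fin n × (L → Bool)))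
    (z : Fin r → L) (t T : ℕ) (hL : 0 < Fintype.card L)
    (hT : 1 ≤ T) (hm : 613440 * Fintype.card L ^ 3 * T ≤ m) (hs : φ.size ≤ t * T ^ 2) :
    ∑ s : Fin ℓ → Fin m, ∑ x : Fin ℓ × Fin m → L,
      (if Good (fun x : Fin ℓ × Fin m → L => if Accp φ (glue e x z) then (1 : ℝ) else 0) t s x
        then (0 : ℝ) else 1) ≤
      (m ^ ℓ * (Fintype.card L : ℝ) ^ (ℓ * m)) * (2 * (1 / 4) ^ t) := by
  set f : (Fin ℓ × Fin m → L) → ℝ := fun x => if Accp φ (glue e x z) then (1 : ℝ) else 0 with hfdef
  have hf : ∀ x, f x = 0 ∨ f x = 1 := by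
    intro x; simp only [hfdef]; split_ifs <;> simp
  have h1 := count_bad f hf t (fun j => 4 * (3 / (48 * (Fintype.card L : ℝ) ^ 2)) ^ j +
    2 * (((1 / 4 : ℝ) ^ (Fintype.card L * j)) ^ 2)) hL (by
    intro j hj U V
    let ρ : Fin n × (L → Bool) → Fml (Fin ℓ × Fin m) := fun v =>
      match e v.1 with
      | .inl w => lit2 w (v.2 (U w)) (v.2 (V w))
      | .inr q => .const (v.2 (z q))
    have hρ : ∀ v, (ρ v).size ≤ 1 := by
      intro v
      simp only [ρ]
      cases h : e v.1 with
      | inl w => exact lit2_size _ _ _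
      | inr q => simp [Fml.size]
    have h1 := formula_weight (Fintype.card L) hL (sub ρ φ) j T (by omega) hT hm
      (((sub_size ρ hρ φ).trans hs).trans (Nat.mul_le_mul_right _ hj.le))
    have h2 : (fun b : Fin ℓ × Fin m → Bool => if (sub ρ φ).eval b = true then (1 : ℝ) else 0) =
        sel f U V := by
      funext b
      unfold sel
      simp only [hfdef]
      unfold Accp
      rw [sub_eval]
      have h3 : (fun v => (ρ v).eval b) = fun v : Fin n × (L → Bool) =>
          v.2 (glue e (fun w => if b w = true then V w else U w) z v.1) := by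
        funext v
        simp only [ρ, glue]
        cases h : e v.1 with
        | inl w =>
          simp only [lit2_eval, Sum.elim_inl]
          split_ifs <;> rfl
        | inr q => simp [Fml.eval]
      rw [h3]
      have h4 : ∀ (q : Bool) (d1 d2 : Decidable (q = true)),
          (@ite ℝ (q = true) d1 1 0) = @ite ℝ (q = true) d2 1 0 := by
        intro q d1 d2
        congr
      exact h4 _ _ _
    rw [← h2]
    exact h1)
  refine h1.trans ?_
  simp only [Fintype.card_fin, Fintype.card_prod]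
  apply mul_le_mul_of_nonneg_left _ (by positivity)
  refine (Finset.sum_le_sum (fun j _ => weight_num (Fintype.card L) j hL)).trans ?_
  exact geom6 t ℓ

open Classical in
/-- one formula, given parameters -/
lemma oneG (e : Fin n ≃ (Fin ℓ × Fin m) ⊕ Fin r) (k : ℕ) (τ : Fin k → Fin n → L → L)
    (φ : Fml (Fin n × (L → Bool))) (t T : ℕ) (hL : 0 < Fintype.card L)
    (hT : 1 ≤ T) (hm : 613440 * Fintype.card L ^ 3 * T ≤ m) (hs : φ.size ≤ t * T ^ 2)
    (hk : k * t < ℓ)
    (hfree : ∀ (x : Fin n → L) (W : Finset (Fin n)), (∀ i, Accp φ (put (τ i) W x)) → W = ∅) :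
    ((univ.filter (fun x : Fin n → L => Accp φ x)).card : ℝ) ≤
      2 * (1 / 4) ^ t * (Fintype.card L : ℝ) ^ n := by
  have hm1 : 1 ≤ m := by
    refine le_trans ?_ hm
    exact Nat.mul_pos (Nat.mul_pos (by norm_num) (Nat.pow_pos hL)) hT
  have h1 : ∀ z : Fin r → L,
      ((univ.filter (fun x : Fin ℓ × Fin m → L => Accp φ (glue e x z))).card : ℝ) ≤
      2 * (1 / 4) ^ t * (Fintype.card L : ℝ) ^ (ℓ * m) := by
    intro z
    set f : (Fin ℓ × Fin m → L) → ℝ := fun x => if Accp φ (glue e x z) then (1 : ℝ) else 0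
      with hfdef
    have hf : ∀ x, f x = 0 ∨ f x = 1 := by
      intro x; simp only [hfdef]; split_ifs <;> simp
    have hfr : ∀ (x : Fin ℓ × Fin m → L) (W : Finset (Fin ℓ × Fin m)),
        (∀ i : Fin k, f (put (fun w => τ i (e.symm (Sum.inl w))) W x) = 1) → W = ∅ := by
      intro x W h
      have h3 := hfree (glue e x z) (W.map ⟨fun w => e.symm (Sum.inl w), by
        intro a b hab
        simpa using hab⟩) (by
        intro i
        have h4 := h i
        simp only [hfdef] at h4
        have h4' : Accp φ (glue e (put (fun w => τ i (e.symm (Sum.inl w))) W x) z) := by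
          by_contra hc
          rw [if_neg hc] at h4
          norm_num at h4
        have h5 : glue e (put (fun w => τ i (e.symm (Sum.inl w))) W x) z =
            put (τ i) (W.map ⟨fun w => e.symm (Sum.inl w), by
              intro a b hab
              simpa using hab⟩) (glue e x z) := by
          funext v
          obtain ⟨w, rfl⟩ := e.symm.surjective v
          cases w with
          | inl w => simp [glue, put]
          | inr q => simp [glue, put]
        rw [← h5]
        exact h4')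
      simpa using h3
    have h2 := few_bad_pts e φ z t T hL hT hm hs
    have h3 : (m : ℝ) ^ ℓ *
        ((univ.filter (fun x : Fin ℓ × Fin m → L => Accp φ (glue e x z))).card : ℝ) ≤
        ∑ s : Fin ℓ → Fin m, ∑ x : Fin ℓ × Fin m → L, (if Good f t s x then (0 : ℝ) else 1) := by
      have h4 : (m : ℝ) ^ ℓ *
        ((univ.filter (fun x : Fin ℓ × Fin m → L => Accp φ (glue e x z))).card : ℝ) =
        ∑ _s : Fin ℓ → Fin m,
          ((univ.filter (fun x : Fin ℓ × Fin m → L => Accp φ (glue e x z))).card : ℝ) := by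
        rw [Finset.sum_const, Finset.card_univ, Fintype.card_fun, nsmul_eq_mul]
        simp
      rw [h4]
      refine Finset.sum_le_sum (fun s _ => ?_)
      rw [Finset.card_filter]
      push_cast
      refine Finset.sum_le_sum (fun x _ => ?_)
      by_cases hx : Accp φ (glue e x z)
      · have h5 := poly_good (κ := Fin k) (fun i w => τ i (e.symm (Sum.inl w))) f hf t
          (by simpa using hk) hfr s x (by simp only [hfdef]; rw [if_pos hx])
        rw [if_pos hx, if_neg h5]
      · rw [if_neg hx]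
        split_ifs <;> norm_num
    have hmr : (0 : ℝ) < (m : ℝ) ^ ℓ := by
      have : (0 : ℝ) < m := by exact_mod_cast hm1
      positivity
    refine le_of_mul_le_mul_left ((h3.trans h2).trans (le_of_eq ?_)) hmr
    ring
  have h6 : (univ.filter (fun x : Fin n → L => Accp φ x)).card =
      ∑ z : Fin r → L, (univ.filter (fun x : Fin ℓ × Fin m → L => Accp φ (glue e x z))).card := by
    let E : ((Fin ℓ × Fin m → L) × (Fin r → L)) ≃ (Fin n → L) :=
      (Equiv.sumArrowEquivProdArrow _ _ _).symm.trans (Equiv.arrowCongr e.symm (Equiv.refl L))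
    have hE : ∀ p, E p = glue e p.1 p.2 := by
      intro p
      funext v
      simp only [E, glue, Equiv.trans_apply, Equiv.arrowCongr_apply]
      rfl
    simp only [Finset.card_filter]
    rw [← Fintype.sum_equiv E (fun p => if Accp φ (glue e p.1 p.2) then 1 else 0)
      (fun x => if Accp φ x then 1 else 0) (fun p => by rw [hE]), Fintype.sum_prod_type,
      Finset.sum_comm]
  have hn : n = ℓ * m + r := by
    have := Fintype.card_congr e
    simpa using this
  rw [h6]
  push_cast
  refine (Finset.sum_le_sum (fun z _ => h1 z)).trans (le_of_eq ?_)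
  rw [Finset.sum_const, Finset.card_univ, Fintype.card_fun, Fintype.card_fin, nsmul_eq_mul]
  push_cast
  rw [hn, pow_add]
  ring

end

/-- the numerical part: parameters -/
lemma paramsG (n S k M : ℕ) (hk : 2 ≤ k) (hM : 1 ≤ M) (hn : 1 ≤ n) :
    (∃ ℓ m r t T : ℕ, n = ℓ * m + r ∧ 1 ≤ T ∧ M * T ≤ m ∧ S ≤ t * T ^ 2 ∧ k * t < ℓ ∧
      (n : ℝ) ^ 2 / (20 * M ^ 2 * k ^ 2 * (S + n)) ≤ t) ∨
    (n : ℝ) ^ 2 / (20 * M ^ 2 * k ^ 2 * (S + n)) ≤ 1 / 2 := by
  have hnr : (1 : ℝ) ≤ n := by exact_mod_cast hn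
  have hkr : (2 : ℝ) ≤ k := by exact_mod_cast hk
  have hSr : (0 : ℝ) ≤ S := by positivity
  have hMr : (1 : ℝ) ≤ M := by exact_mod_cast hM
  have hMpos : (0 : ℝ) < M := by linarith
  set T : ℕ := ⌈4 * k * M * ((S : ℝ) + n) / n⌉₊ with hT
  have hT0 : 4 * k * M * ((S : ℝ) + n) / n ≤ T := Nat.le_ceil _
  have hX : (1 : ℝ) ≤ k * M * ((S : ℝ) + n) / n := by
    rw [le_div_iff₀ (by linarith)]
    have h1 : (1 : ℝ) ≤ k * M := by nlinarith
    have h2 : (n : ℝ) ≤ S + n := by linarith
    calc 1 * (n : ℝ) ≤ (k * M) * (S + n) := mul_le_mul h1 h2 (by linarith) (by linarith)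
      _ = _ := by ring
  have hT1' : (1 : ℝ) ≤ T := by
    have : 4 * k * M * ((S : ℝ) + n) / n = 4 * (k * M * ((S : ℝ) + n) / n) := by ring
    linarith
  have hT1 : 1 ≤ T := by exact_mod_cast hT1'
  have hT2 : (T : ℝ) ≤ 5 * (k * M * ((S : ℝ) + n) / n) := by
    have h1 := Nat.ceil_lt_add_one (a := 4 * k * M * ((S : ℝ) + n) / n) (by positivity)
    have : 4 * k * M * ((S : ℝ) + n) / n = 4 * (k * M * ((S : ℝ) + n) / n) := by ring
    have h2 : (T : ℝ) < 4 * k * M * ((S : ℝ) + n) / n + 1 := h1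
    linarith
  set m : ℕ := M * T with hm
  have hm0 : 0 < m := Nat.mul_pos hM hT1
  set ℓ : ℕ := n / m with hℓ
  have hmr : (0 : ℝ) < m := by exact_mod_cast hm0
  have hmT : (m : ℝ) = M * T := by rw [hm]; push_cast; rfl
  by_cases hbig : 2 * k ≤ ℓ
  · left
    set t : ℕ := (ℓ - 1) / k with ht
    have hkt : k * t ≤ ℓ - 1 := Nat.mul_div_le _ _
    have hℓn : n < m * (ℓ + 1) := Nat.lt_mul_div_succ n hm0
    have hℓn' : (n : ℝ) < m * (ℓ + 1) := by exact_mod_cast hℓn
    have hlt : ℓ - 1 < k * (t + 1) := Nat.lt_mul_div_succ _ (by omega)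
    have hlt' : (ℓ : ℝ) ≤ k * (t + 1) := by
      have : ℓ ≤ k * (t + 1) := by omega
      exact_mod_cast this
    have hbig' : 2 * (k : ℝ) ≤ ℓ := by exact_mod_cast hbig
    -- ℓ ≤ 2 k t
    have h1 : (ℓ : ℝ) ≤ 2 * (k * t) := by nlinarith
    have h2 : (n : ℝ) ≤ 4 * m * (k * t) := by nlinarith
    have htlow : (n : ℝ) / (4 * m * k) ≤ t := by
      rw [div_le_iff₀ (by positivity)]
      nlinarith
    refine ⟨ℓ, m, n % m, t, T, ?_, hT1, le_rfl, ?_, by omega, ?_⟩
    · rw [hℓ, mul_comm]; exact (Nat.div_add_mod n m).symm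
    · -- S ≤ t T^2
      have h3 : (S : ℝ) ≤ t * T ^ 2 := by
        have h4 : (n : ℝ) / (4 * m * k) * T ^ 2 ≤ t * T ^ 2 :=
          mul_le_mul_of_nonneg_right htlow (by positivity)
        refine le_trans ?_ h4
        have h5 : (n : ℝ) / (4 * m * k) * T ^ 2 = n * T / (4 * M * k) := by
          rw [hmT]
          have : (T : ℝ) ≠ 0 := by positivity
          have : (M : ℝ) ≠ 0 := hMpos.ne'
          field_simp
        rw [h5, le_div_iff₀ (by positivity)]
        have h6 : 4 * k * M * ((S : ℝ) + n) ≤ T * n := by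
          rw [div_le_iff₀ (by linarith)] at hT0
          exact hT0
        have h7 : (0 : ℝ) ≤ k * M * n := by positivity
        calc (S : ℝ) * (4 * M * k) ≤ 4 * k * M * ((S : ℝ) + n) := by nlinarith
          _ ≤ n * T := by linarith
      exact_mod_cast h3
    · refine le_trans ?_ htlow
      rw [div_le_div_iff₀ (by positivity) (by positivity)]
      have h7 : (m : ℝ) * n ≤ 5 * k * M ^ 2 * (S + n) := by
        rw [hmT]
        have h8 : (T : ℝ) * n ≤ 5 * (k * M * (S + n)) := by
          have h9 := mul_le_mul_of_nonneg_right hT2 (by linarith : (0 : ℝ) ≤ n)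
          refine h9.trans (le_of_eq ?_)
          field_simp
        calc (M : ℝ) * T * n = M * (T * n) := by ring
          _ ≤ M * (5 * (k * M * (S + n))) := mul_le_mul_of_nonneg_left h8 (by positivity)
          _ = _ := by ring
      calc (n : ℝ) ^ 2 * (4 * m * k) = (4 * k * n) * (m * n) := by ring
        _ ≤ (4 * k * n) * (5 * k * M ^ 2 * (S + n)) :=
            mul_le_mul_of_nonneg_left h7 (by positivity)
        _ = n * (20 * M ^ 2 * k ^ 2 * (S + n)) := by ring
  · right
    push Not at hbig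
    have hℓn : n < m * (ℓ + 1) := Nat.lt_mul_div_succ n hm0
    have h1 : (n : ℝ) ≤ m * (2 * k) := by
      have : n ≤ m * (2 * k) := hℓn.le.trans (Nat.mul_le_mul_left _ (by omega))
      exact_mod_cast this
    rw [div_le_iff₀ (by positivity)]
    have h8 : (T : ℝ) * n ≤ 5 * (k * M * (S + n)) := by
      have h9 := mul_le_mul_of_nonneg_right hT2 (by linarith : (0 : ℝ) ≤ n)
      refine h9.trans (le_of_eq ?_)
      field_simp
    calc (n : ℝ) ^ 2 = n * n := sq _
      _ ≤ (m * (2 * k)) * n := mul_le_mul_of_nonneg_right h1 (by linarith)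
      _ = 2 * k * M * (T * n) := by rw [hmT]; ring
      _ ≤ 2 * k * M * (5 * (k * M * (S + n))) := mul_le_mul_of_nonneg_left h8 (by positivity)
      _ = 1 / 2 * (20 * M ^ 2 * k ^ 2 * (S + n)) := by ring

/-- the constant -/
noncomputable def cstG : ℝ := 1 / (20 * 613440 ^ 2)

lemma cstG_pos : 0 < cstG := by unfold cstG; positivity

open Classical in
/-- **Sets decided by small formulas which contain no pattern are small**, for arbitrary maps. -/
theorem mainG (k n S T : ℕ) (hk : 2 ≤ k) {L : Type} [Fintype L]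
    (τ : Fin k → Fin n → L → L) (A : Finset (Fin n → L))
    (φ : Fin T → Fml (Fin n × (L → Bool))) (hS : ∀ j, (φ j).size ≤ S)
    (hA : ∀ x, x ∈ A ↔ ∃ j, Accp (φ j) x)
    (hfree : ∀ (x : Fin n → L) (W : Finset (Fin n)), (∀ i, put (τ i) W x ∈ A) → W = ∅) :
    (A.card : ℝ) ≤ T * (2 * (Fintype.card L : ℝ) ^ n *
      Real.exp (-(cstG * n ^ 2 / ((Fintype.card L : ℝ) ^ 6 * k ^ 2 * (S + n))))) := by
  have hkr : (2 : ℝ) ≤ k := by exact_mod_cast hk
  set q : ℕ := Fintype.card L with hqdef
  have hone : ∀ j, ((univ.filter (fun x : Fin n → L => Accp (φ j) x)).card : ℝ) ≤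
      2 * (q : ℝ) ^ n * Real.exp (-(cstG * n ^ 2 / ((q : ℝ) ^ 6 * k ^ 2 * (S + n)))) := by
    intro j
    have htriv : ((univ.filter (fun x : Fin n → L => Accp (φ j) x)).card : ℝ) ≤
        (q : ℝ) ^ n := by
      have := Finset.card_le_univ (univ.filter (fun x : Fin n → L => Accp (φ j) x))
      rw [Fintype.card_fun, Fintype.card_fin] at this
      exact_mod_cast this
    have hpos : (0 : ℝ) ≤ (q : ℝ) ^ n := by positivity
    have hsmall : cstG * (n : ℝ) ^ 2 / ((q : ℝ) ^ 6 * k ^ 2 * (S + n)) ≤ 1 / 2 →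
        ((univ.filter (fun x : Fin n → L => Accp (φ j) x)).card : ℝ) ≤
        2 * (q : ℝ) ^ n * Real.exp (-(cstG * n ^ 2 / ((q : ℝ) ^ 6 * k ^ 2 * (S + n)))) := by
      intro h
      have h1 : (1 : ℝ) / 2 ≤
          Real.exp (-(cstG * (n : ℝ) ^ 2 / ((q : ℝ) ^ 6 * k ^ 2 * (S + n)))) := by
        have h2 := Real.add_one_le_exp (-(cstG * (n : ℝ) ^ 2 / ((q : ℝ) ^ 6 * k ^ 2 * (S + n))))
        linarith
      calc _ ≤ (q : ℝ) ^ n := htriv
        _ = 2 * (q : ℝ) ^ n * (1 / 2) := by ring
        _ ≤ 2 * (q : ℝ) ^ n *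
            Real.exp (-(cstG * (n : ℝ) ^ 2 / ((q : ℝ) ^ 6 * k ^ 2 * (S + n)))) :=
            mul_le_mul_of_nonneg_left h1 (by positivity)
    rcases Nat.eq_zero_or_pos n with hn | hn
    · subst hn
      apply hsmall
      simp
    rcases Nat.eq_zero_or_pos q with hq | hq
    · apply hsmall
      rw [hq]
      norm_num
    · have hnr : (1 : ℝ) ≤ n := by exact_mod_cast hn
      have hqr : (1 : ℝ) ≤ q := by exact_mod_cast hq
      have hrw : cstG * (n : ℝ) ^ 2 / ((q : ℝ) ^ 6 * k ^ 2 * (S + n)) =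
          (n : ℝ) ^ 2 / (20 * ((613440 * q ^ 3 : ℕ) : ℝ) ^ 2 * k ^ 2 * (S + n)) := by
        unfold cstG
        push_cast
        field_simp
      rcases paramsG n S k (613440 * q ^ 3) hk (Nat.mul_pos (by norm_num) (Nat.pow_pos hq)) hn with
        ⟨ℓ, m, r, t, T', hsum, hT, hm, hSt, hkt, ht⟩ | h
      · have e : Fin n ≃ (Fin ℓ × Fin m) ⊕ Fin r :=
          Fintype.equivOfCardEq (by simp [hsum])
        have h1 := oneG e k τ (φ j) t T' hq hT hm ((hS j).trans hSt) hkt (by
          intro x W h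
          exact hfree x W (fun i => (hA _).2 ⟨j, h i⟩))
        refine h1.trans ?_
        have h2 : ((1 : ℝ) / 4) ^ t ≤
            Real.exp (-(cstG * n ^ 2 / ((q : ℝ) ^ 6 * k ^ 2 * (S + n)))) := by
          rw [hrw]
          have h3 : ((1 : ℝ) / 4) ≤ Real.exp (-1) := by
            rw [Real.exp_neg, one_div]
            apply inv_anti₀ (Real.exp_pos 1)
            linarith [Real.exp_one_lt_d9]
          calc ((1 : ℝ) / 4) ^ t ≤ Real.exp (-1) ^ t := pow_le_pow_left₀ (by norm_num) h3 t
            _ = Real.exp (-(t : ℝ)) := by rw [← Real.exp_nat_mul]; congr 1; ring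
            _ ≤ _ := Real.exp_le_exp.2 (by linarith)
        calc (2 : ℝ) * (1 / 4) ^ t * (q : ℝ) ^ n
            = (2 * (q : ℝ) ^ n) * (1 / 4) ^ t := by ring
          _ ≤ (2 * (q : ℝ) ^ n) *
              Real.exp (-(cstG * n ^ 2 / ((q : ℝ) ^ 6 * k ^ 2 * (S + n)))) :=
            mul_le_mul_of_nonneg_left h2 (by positivity)
      · apply hsmall
        rw [hrw]
        exact h
  have hsub : A ⊆ univ.biUnion (fun j : Fin T => univ.filter (fun x : Fin n → L => Accp (φ j) x)) := by
    intro x hx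
    obtain ⟨j, hj⟩ := (hA x).1 hx
    simp only [mem_biUnion, mem_univ, true_and, mem_filter]
    exact ⟨j, hj⟩
  calc (A.card : ℝ) ≤ ((univ.biUnion (fun j : Fin T =>
        univ.filter (fun x : Fin n → L => Accp (φ j) x))).card : ℝ) := by
        exact_mod_cast Finset.card_le_card hsub
    _ ≤ ((∑ j : Fin T, (univ.filter (fun x : Fin n → L => Accp (φ j) x)).card : ℕ) : ℝ) := by
        exact_mod_cast Finset.card_biUnion_le
    _ = ∑ j : Fin T, ((univ.filter (fun x : Fin n → L => Accp (φ j) x)).card : ℝ) := by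
        push_cast; rfl
    _ ≤ ∑ _j : Fin T, 2 * (q : ℝ) ^ n *
        Real.exp (-(cstG * n ^ 2 / ((q : ℝ) ^ 6 * k ^ 2 * (S + n)))) :=
          Finset.sum_le_sum (fun j _ => hone j)
    _ = _ := by simp

end Pool.Agent.Y607.LP
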